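import Mathlib

/-!
# Adding : almost everywhere finiteness of a sum (module B8)

Let `E` be a set of finite measure (measurable), `θ ∈ (0,1)`.  `∫_E G^θ ≤ μ E + ∑_k 2^{(k+1)θ} μ{G > 2^k}` (pointwise
`G^θ ≤ 1 + ∑_k 2^{(k+1)θ} 1[G > 2^k]`) `≤ μ E + Cθ A B` with `Cθ = ∑_k 2^{(k+1)θ - k} < ∞`.  Then
`∫_E ∑_s (p s * G s)^θ ≤ ∑_s (p s)^θ (μ E + Cθ A s B) < ∞` (`A s ≥ 1`), so a.e. on `E` `Z = ∑_s (p s G s)^θ < ∞`, and with
`a_s = p s G s`: `a_s^θ ≤ Z`, `a_s = a_s^θ a_s^{1-θ} ≤ a_s^θ Z^{(1-θ)/θ}`, so `∑ a_s ≤ Z^{1/θ} < ∞`.  σ-finite: exhaust.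
-/

open MeasureTheory ENNReal

noncomputable section

namespace Zyg

/-- The coefficient `2 ^ ((k + 1) θ)`. -/
def adding_c (θ : ℝ) (k : ℕ) : ℝ≥0∞ := (2 : ℝ≥0∞) ^ (((k : ℝ) + 1) * θ)

lemma adding_one_le {θ : ℝ} (h0 : 0 < θ) (k : ℕ) : 1 ≤ adding_c θ k := by
  unfold adding_c
  exact ENNReal.one_le_rpow (by norm_num) (by positivity)

/-- The pointwise bound. -/
lemma adding_pt {θ : ℝ} (h0 : 0 < θ) (g : ℝ≥0∞) :
    g ^ θ ≤ 1 + ∑' k : ℕ, (if (2 : ℝ≥0∞) ^ k < g then adding_c θ k else 0) := by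
  by_cases hg1 : g ≤ 1
  · refine le_trans ?_ le_self_add
    exact ENNReal.rpow_le_one hg1 h0.le
  rw [not_le] at hg1
  by_cases hgt : g = ⊤
  · have h1 : ∀ k : ℕ, (2 : ℝ≥0∞) ^ k < g := by
      intro k
      rw [hgt]
      exact ENNReal.pow_lt_top (by norm_num)
    have h2 : ∑' k : ℕ, (if (2 : ℝ≥0∞) ^ k < g then adding_c θ k else 0) = ⊤ := by
      apply top_le_iff.mp
      calc (⊤ : ℝ≥0∞) = ∑' _ : ℕ, (1 : ℝ≥0∞) :=
            (ENNReal.tsum_const_eq_top_of_ne_zero one_ne_zero).symm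
        _ ≤ _ := ENNReal.tsum_le_tsum fun k => by
            rw [if_pos (h1 k)]
            exact adding_one_le h0 k
    rw [h2]
    simp
  · have hex : ∃ n : ℕ, g ≤ (2 : ℝ≥0∞) ^ n := by
      obtain ⟨n, hn⟩ := ENNReal.exists_nat_gt hgt
      refine ⟨n, hn.le.trans ?_⟩
      exact_mod_cast (Nat.lt_two_pow_self (n := n)).le
    classical
    obtain ⟨k, hk⟩ : ∃ k, Nat.find hex = k + 1 := by
      apply Nat.exists_eq_succ_of_ne_zero
      intro h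
      have := Nat.find_spec hex
      rw [h, pow_zero] at this
      exact absurd this (not_le.mpr hg1)
    have h1 : g ≤ (2 : ℝ≥0∞) ^ (k + 1) := hk ▸ Nat.find_spec hex
    have h2 : (2 : ℝ≥0∞) ^ k < g := not_le.mp (Nat.find_min hex (by omega))
    refine le_trans ?_ le_add_self
    refine le_trans ?_ (ENNReal.le_tsum k)
    rw [if_pos h2]
    unfold adding_c
    calc g ^ θ ≤ ((2 : ℝ≥0∞) ^ (k + 1)) ^ θ := ENNReal.rpow_le_rpow h1 h0.le
      _ = _ := by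
        rw [← ENNReal.rpow_natCast, ← ENNReal.rpow_mul]
        push_cast
        rfl

lemma adding_series {θ : ℝ} (k : ℕ) :
    adding_c θ k * ((2 : ℝ≥0∞) ^ k)⁻¹ = 2 ^ θ * ((2 : ℝ≥0∞) ^ (θ - 1)) ^ k := by
  unfold adding_c
  rw [← ENNReal.rpow_natCast, ← ENNReal.rpow_natCast, ← ENNReal.rpow_neg, ← ENNReal.rpow_mul,
    ← ENNReal.rpow_add _ _ (by norm_num) (by norm_num),
    ← ENNReal.rpow_add _ _ (by norm_num) (by norm_num)]
  congr 1
  ring

theorem lintegral_rpow_le {α : Type} [MeasurableSpace α] {μ : Measure α} {θ : ℝ} (h0 : 0 < θ)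
    (h1 : θ < 1) : ∃ Cθ : ℝ≥0∞, Cθ ≠ ⊤ ∧ ∀ (E : Set α), MeasurableSet E →
      ∀ (G : α → ℝ≥0∞), Measurable G → ∀ M : ℝ≥0∞,
      (∀ k : ℕ, μ {x | 2 ^ k < G x} ≤ M / 2 ^ k) → ∫⁻ x in E, G x ^ θ ∂μ ≤ μ E + Cθ * M := by
  have hr : (2 : ℝ≥0∞) ^ (θ - 1) < 1 :=
    ENNReal.rpow_lt_one_of_one_lt_of_neg (by norm_num) (by linarith)
  refine ⟨2 ^ θ * (1 - (2 : ℝ≥0∞) ^ (θ - 1))⁻¹, ?_, ?_⟩
  · apply ENNReal.mul_ne_top
    · exact ENNReal.rpow_ne_top_of_nonneg h0.le (by norm_num)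
    · rw [ENNReal.inv_ne_top]
      exact (tsub_pos_of_lt hr).ne'
  intro E hE G hG M hM
  have hm : ∀ k : ℕ, MeasurableSet {x | (2 : ℝ≥0∞) ^ k < G x} := fun k =>
    measurableSet_lt measurable_const hG
  have hif : ∀ k : ℕ, Measurable fun x => (if (2 : ℝ≥0∞) ^ k < G x then adding_c θ k else 0) :=
    fun k => Measurable.ite (hm k) measurable_const measurable_const
  calc ∫⁻ x in E, G x ^ θ ∂μ
      ≤ ∫⁻ x in E, (1 + ∑' k : ℕ, (if (2 : ℝ≥0∞) ^ k < G x then adding_c θ k else 0)) ∂μ :=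
        lintegral_mono fun x => adding_pt h0 (G x)
    _ = μ E + ∑' k : ℕ, ∫⁻ x in E, (if (2 : ℝ≥0∞) ^ k < G x then adding_c θ k else 0) ∂μ := by
        rw [lintegral_add_left measurable_const, lintegral_tsum fun k => (hif k).aemeasurable]
        simp
    _ ≤ μ E + ∑' k : ℕ, (2 ^ θ * ((2 : ℝ≥0∞) ^ (θ - 1)) ^ k) * M := by
        gcongr with k
        calc ∫⁻ x in E, (if (2 : ℝ≥0∞) ^ k < G x then adding_c θ k else 0) ∂μ
            ≤ ∫⁻ x, (if (2 : ℝ≥0∞) ^ k < G x then adding_c θ k else 0) ∂μ :=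
              setLIntegral_le_lintegral _ _
          _ = ∫⁻ x, ({x | (2 : ℝ≥0∞) ^ k < G x}.indicator fun _ => adding_c θ k) x ∂μ := by
              refine lintegral_congr fun x => ?_
              simp [Set.indicator]
          _ = adding_c θ k * μ {x | (2 : ℝ≥0∞) ^ k < G x} := lintegral_indicator_const (hm k) _
          _ ≤ adding_c θ k * (M / 2 ^ k) := by
              gcongr
              exact hM k
          _ = _ := by
              rw [← adding_series, div_eq_mul_inv]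
              ring
    _ = μ E + 2 ^ θ * (1 - (2 : ℝ≥0∞) ^ (θ - 1))⁻¹ * M := by
        rw [ENNReal.tsum_mul_right, ENNReal.tsum_mul_left, ENNReal.tsum_geometric]

theorem ae_tsum_lt_top {α ι : Type} [Countable ι] [MeasurableSpace α] {μ : Measure α}
    [SigmaFinite μ] {θ : ℝ} (h0 : 0 < θ) (h1 : θ < 1) (p A : ι → ℝ≥0∞) (B : ℝ≥0∞) (hB : B ≠ ⊤)
    (hA : ∀ s, 1 ≤ A s) (hsum : ∑' s, p s ^ θ * A s ≠ ⊤) (G : ι → α → ℝ≥0∞)
    (hG : ∀ s, Measurable (G s)) (hw : ∀ s, ∀ k : ℕ, μ {x | 2 ^ k < G s x} ≤ A s * B / 2 ^ k) :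
    ∀ᵐ x ∂μ, ∑' s, p s * G s x < ⊤ := by
  obtain ⟨Cθ, hC, hle⟩ := lintegral_rpow_le (μ := μ) h0 h1
  refine ae_of_forall_measure_lt_top_ae_restrict _ fun E hE hEt => ?_
  have hmeas : ∀ s, Measurable fun x => (p s * G s x) ^ θ := fun s =>
    ((hG s).const_mul (p s)).pow_const θ
  have hint : ∫⁻ x in E, ∑' s, (p s * G s x) ^ θ ∂μ ≠ ⊤ := by
    have h2 : ∫⁻ x in E, ∑' s, (p s * G s x) ^ θ ∂μ ≤
        (∑' s, p s ^ θ * A s) * (μ E + Cθ * B) := by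
      rw [lintegral_tsum fun s => (hmeas s).aemeasurable, ← ENNReal.tsum_mul_right]
      refine ENNReal.tsum_le_tsum fun s => ?_
      calc ∫⁻ x in E, (p s * G s x) ^ θ ∂μ = ∫⁻ x in E, p s ^ θ * G s x ^ θ ∂μ :=
            lintegral_congr fun x => ENNReal.mul_rpow_of_nonneg _ _ h0.le
        _ = p s ^ θ * ∫⁻ x in E, G s x ^ θ ∂μ := lintegral_const_mul _ ((hG s).pow_const θ)
        _ ≤ p s ^ θ * (μ E + Cθ * (A s * B)) := by
            gcongr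
            exact hle E hE (G s) (hG s) _ (hw s)
        _ ≤ p s ^ θ * (A s * μ E + Cθ * (A s * B)) := by
            gcongr
            exact le_mul_of_one_le_left zero_le (hA s)
        _ = p s ^ θ * A s * (μ E + Cθ * B) := by ring
    refine ne_top_of_le_ne_top (ENNReal.mul_ne_top hsum ?_) h2
    exact ENNReal.add_ne_top.mpr ⟨hEt.ne, ENNReal.mul_ne_top hC hB⟩
  have hae := ae_lt_top (Measurable.ennreal_tsum fun s => hmeas s) hint
  filter_upwards [hae] with x hx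
  set Z := ∑' s, (p s * G s x) ^ θ with hZ
  have hle2 : ∀ s, p s * G s x ≤ (p s * G s x) ^ θ * Z ^ ((1 - θ) / θ) := by
    intro s
    have h3 : (p s * G s x) ^ θ ≤ Z := ENNReal.le_tsum s
    have h4 : (p s * G s x) ^ (1 - θ) ≤ Z ^ ((1 - θ) / θ) := by
      have h5 : (p s * G s x) ^ (1 - θ) = ((p s * G s x) ^ θ) ^ ((1 - θ) / θ) := by
        rw [← ENNReal.rpow_mul]
        congr 1
        field_simp
      rw [h5]
      exact ENNReal.rpow_le_rpow h3 (div_nonneg (by linarith) h0.le)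
    calc p s * G s x = (p s * G s x) ^ (θ + (1 - θ)) := by
          rw [add_sub_cancel, ENNReal.rpow_one]
      _ = (p s * G s x) ^ θ * (p s * G s x) ^ (1 - θ) :=
          ENNReal.rpow_add_of_nonneg _ _ h0.le (by linarith)
      _ ≤ _ := by gcongr
  calc ∑' s, p s * G s x ≤ ∑' s, (p s * G s x) ^ θ * Z ^ ((1 - θ) / θ) :=
        ENNReal.tsum_le_tsum hle2
    _ = Z * Z ^ ((1 - θ) / θ) := ENNReal.tsum_mul_right
    _ < ⊤ := ENNReal.mul_lt_top hx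
        (ENNReal.rpow_lt_top_of_nonneg (div_nonneg (by linarith) h0.le) hx.ne)

end Zyg
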