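import Pool.Agent.Work.MP_93d592_an.A.ThmA

/-!
# Box : dyadic boxes of `C → ℝ` (Part B, module B1)

`idx l x` = index of the dyadic box of level `l : C → ℤ` (side `2^(-l c)` in the coordinate `c`)
which contains `x`.  All sets and functions below are measurable: `idx l` is a measurable map into a
countable discrete space (`measurable_pi_iff`, `Int.measurable_floor`).  Volume of a box:
`bx l j = Set.univ.pi (fun c => Set.Ico (j c / 2^(l c)) ((j c + 1) / 2^(l c)))`, `Real.volume_pi_Ico`
(or `volume_pi_pi`).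
-/

open MeasureTheory ENNReal
open scoped Classical

noncomputable section

namespace Zyg

variable {C : Type} [Fintype C] [LinearOrder C] {m : ℕ}

/-- index of the dyadic box of level `l` containing `x` -/
def idx (l : C → ℤ) (x : C → ℝ) : C → ℤ := fun c => ⌊(2 : ℝ) ^ (l c) * x c⌋

/-- the dyadic box of level `l` and index `j` -/
def bx (l j : C → ℤ) : Set (C → ℝ) := {x | idx l x = j}

/-- 1 / volume of the boxes of level `l` -/
def dens (l : C → ℤ) : ℝ≥0∞ := ∏ c, ENNReal.ofReal ((2 : ℝ) ^ (l c))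

/-- average of `g` over a dyadic box -/
def avb (g : (C → ℝ) → ℝ≥0∞) (l j : C → ℤ) : ℝ≥0∞ := dens l * ∫⁻ x in bx l j, g x

/-- shifted dyadic maximal function for the boxes of levels `lv a w` -/
def MM (a : C → Fin m → ℕ) (s : C → ℤ) (g : (C → ℝ) → ℝ≥0∞) (x : C → ℝ) : ℝ≥0∞ :=
  ⨆ w : Fin m → ℤ, avb g (lv a w) (idx (lv a w) x + s)

theorem measurable_idx (l : C → ℤ) : Measurable (idx (C := C) l) := by
  rw [measurable_pi_iff]
  intro c
  exact Int.measurable_floor.comp ((measurable_pi_apply c).const_mul _)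

theorem measurableSet_bx (l j : C → ℤ) : MeasurableSet (bx (C := C) l j) :=
  measurable_idx l (measurableSet_singleton j)

theorem dens_ne_zero (l : C → ℤ) : dens (C := C) l ≠ 0 := by
  unfold dens
  rw [Finset.prod_ne_zero_iff]
  intro c _
  rw [Ne, ENNReal.ofReal_eq_zero, not_le]
  positivity

theorem dens_ne_top (l : C → ℤ) : dens (C := C) l ≠ ⊤ := by
  unfold dens
  exact ENNReal.prod_ne_top fun c _ => ENNReal.ofReal_ne_top

theorem box_eq_pi (l j : C → ℤ) : bx (C := C) l j =
    Set.univ.pi fun c => Set.Ico ((j c : ℝ) / 2 ^ (l c)) (((j c : ℝ) + 1) / 2 ^ (l c)) := by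
  ext x
  simp only [bx, idx, Set.mem_setOf_eq, Set.mem_pi, Set.mem_univ, true_imp_iff, Set.mem_Ico,
    funext_iff]
  refine forall_congr' fun c => ?_
  have h : (0 : ℝ) < 2 ^ (l c) := by positivity
  rw [Int.floor_eq_iff, div_le_iff₀ h, lt_div_iff₀ h, mul_comm]

theorem volume_bx (l j : C → ℤ) : volume (bx (C := C) l j) = (dens l)⁻¹ := by
  rw [box_eq_pi, volume_pi_pi]
  unfold dens
  rw [ENNReal.prod_inv_distrib]
  · refine Finset.prod_congr rfl fun c _ => ?_
    have h : (0 : ℝ) < 2 ^ (l c) := by positivity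
    rw [Real.volume_Ico, ← ENNReal.ofReal_inv_of_pos h]
    congr 1
    field_simp
    ring
  · intro c _ c' _ _
    exact Or.inr ENNReal.ofReal_ne_top

theorem measurable_MM (a : C → Fin m → ℕ) (s : C → ℤ) (g : (C → ℝ) → ℝ≥0∞) :
    Measurable (MM a s g) := by
  unfold MM
  refine Measurable.iSup fun w => ?_
  have h : Measurable fun k : C → ℤ => avb g (lv a w) (k + s) := measurable_of_countable _
  exact h.comp (measurable_idx _)

/-- scaling -/
theorem MM_const_mul (a : C → Fin m → ℕ) (s : C → ℤ) {g : (C → ℝ) → ℝ≥0∞} (hg : Measurable g)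
    (r : ℝ≥0∞) (x : C → ℝ) : MM a s (fun y => r * g y) x = r * MM a s g x := by
  unfold MM
  rw [ENNReal.mul_iSup]
  refine iSup_congr fun w => ?_
  unfold avb
  rw [lintegral_const_mul r hg]
  ring

end Zyg
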