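import Mathlib

/-!
# PhiF : the Orlicz function `t (1 + log⁺ t)^m` (module B2)

Convexity on `[0,∞)`: on `[0,1]` it is `t`, on `[1,∞)` it is smooth with
increasing derivative `(1+log t)^m + m (1+log t)^(m-1)`; monotone slopes of adjacent intervals.
`jensen`: `ConvexOn.map_set_average_le`.
-/

open MeasureTheory ENNReal

noncomputable section

namespace Zyg

/-- `t (1 + log⁺ t)^m` -/
def phi (m : ℕ) (t : ℝ) : ℝ := t * (1 + max (Real.log t) 0) ^ m

theorem phiF_one_le (m : ℕ) (t : ℝ) : 1 ≤ (1 + max (Real.log t) 0) ^ m :=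
  one_le_pow₀ (by linarith [le_max_right (Real.log t) 0])

theorem phi_nonneg (m : ℕ) {t : ℝ} (ht : 0 ≤ t) : 0 ≤ phi m t := by
  have := phiF_one_le m t
  unfold phi
  positivity

theorem le_phi (m : ℕ) {t : ℝ} (ht : 0 ≤ t) : t ≤ phi m t := by
  have := phiF_one_le m t
  unfold phi
  nlinarith

theorem phiF_eq (m : ℕ) {t : ℝ} (ht : 0 ≤ t) :
    phi m t = t * (1 + Real.log (max t 1)) ^ m := by
  unfold phi
  congr 3
  rcases le_total t 1 with h | h
  · rw [max_eq_right h, Real.log_one, max_eq_right (Real.log_nonpos ht h)]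
  · rw [max_eq_left h, max_eq_left (Real.log_nonneg h)]

theorem phiF_small (m : ℕ) {t : ℝ} (ht : 0 ≤ t) (h : t ≤ 1) : phi m t = t := by
  rw [phiF_eq m ht, max_eq_right h, Real.log_one, add_zero, one_pow, mul_one]

theorem phiF_big (m : ℕ) {t : ℝ} (h : 1 ≤ t) : phi m t = t * (1 + Real.log t) ^ m := by
  rw [phiF_eq m (by linarith), max_eq_left h]

theorem continuousOn_phi (m : ℕ) : ContinuousOn (phi m) (Set.Ici 0) := by
  have h : Continuous fun t : ℝ => t * (1 + Real.log (max t 1)) ^ m := by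
    apply continuous_id.mul
    apply Continuous.pow
    apply continuous_const.add
    apply Continuous.log (continuous_id.max continuous_const)
    intro x
    have : (1 : ℝ) ≤ max (id x) 1 := le_max_right _ _
    positivity
  exact h.continuousOn.congr (fun t ht => phiF_eq m ht)

theorem measurable_phi (m : ℕ) : Measurable (phi m) := by
  unfold phi
  exact measurable_id.mul ((measurable_const.add (Real.measurable_log.max measurable_const)).pow_const m)

theorem phiF_hasDeriv (m : ℕ) {t : ℝ} (ht : 0 < t) :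
    HasDerivAt (fun t : ℝ => t * (1 + Real.log t) ^ m)
      ((1 + Real.log t) ^ m + m * (1 + Real.log t) ^ (m - 1)) t := by
  have h1 : HasDerivAt (fun t : ℝ => 1 + Real.log t) (t⁻¹) t :=
    (Real.hasDerivAt_log ht.ne').const_add 1
  have h2 := (hasDerivAt_id t).mul (h1.pow m)
  have e : (1 + Real.log t) ^ m + m * (1 + Real.log t) ^ (m - 1) =
      1 * (1 + Real.log t) ^ m + id t * (m * (1 + Real.log t) ^ (m - 1) * t⁻¹) := by
    simp only [id]
    field_simp
  rw [e]
  exact h2

theorem phiF_convex_big (m : ℕ) :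
    ConvexOn ℝ (Set.Ici 1) (fun t : ℝ => t * (1 + Real.log t) ^ m) := by
  apply MonotoneOn.convexOn_of_deriv (convex_Ici 1)
  · intro t ht
    have ht' : (0 : ℝ) < t := lt_of_lt_of_le one_pos ht
    exact (phiF_hasDeriv m ht').continuousAt.continuousWithinAt
  · rw [interior_Ici]
    intro t ht
    have ht' : (0 : ℝ) < t := lt_trans one_pos ht
    exact (phiF_hasDeriv m ht').differentiableAt.differentiableWithinAt
  · rw [interior_Ici]
    intro s hs t ht hst
    have hs' : (1 : ℝ) < s := hs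
    have ht' : (1 : ℝ) < t := ht
    rw [(phiF_hasDeriv m (by linarith : (0 : ℝ) < s)).deriv,
      (phiF_hasDeriv m (by linarith : (0 : ℝ) < t)).deriv]
    have h1 : Real.log s ≤ Real.log t := Real.log_le_log (by linarith) hst
    have h0 : 0 ≤ Real.log s := Real.log_nonneg hs'.le
    gcongr

theorem convexOn_phi (m : ℕ) : ConvexOn ℝ (Set.Ici 0) (phi m) := by
  apply convexOn_of_slope_mono_adjacent (convex_Ici 0)
  intro x y z hx hz hxy hyz
  have hx0 : 0 ≤ x := hx
  have hy0 : 0 ≤ y := by linarith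
  have hz0 : 0 ≤ z := by linarith
  have hzy : 0 < z - y := by linarith
  have hyx : 0 < y - x := by linarith
  rcases le_or_gt y 1 with hy | hy
  · -- the left slope is 1
    rw [phiF_small m hx0 (by linarith), phiF_small m hy0 hy, div_self hyx.ne', le_div_iff₀ hzy]
    have := le_phi m hz0
    linarith
  · -- `y > 1`
    have key : ∀ x' : ℝ, 1 ≤ x' → x' < y →
        (phi m y - phi m x') / (y - x') ≤ (phi m z - phi m y) / (z - y) := by
      intro x' hx' hxy'
      rw [phiF_big m hy.le, phiF_big m hx', phiF_big m (by linarith : (1 : ℝ) ≤ z)]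
      exact (phiF_convex_big m).slope_mono_adjacent hx' (by simp only [Set.mem_Ici]; linarith)
        hxy' hyz
    rcases le_or_gt 1 x with hx1 | hx1
    · exact key x hx1 hxy
    · refine le_trans ?_ (key 1 le_rfl hy)
      rw [phiF_small m hx0 hx1.le, phiF_small m zero_le_one le_rfl,
        div_le_div_iff₀ hyx (by linarith)]
      have := le_phi m hy0
      nlinarith

/-- dividing by `r ≥ 1` -/
theorem phi_div_le (m : ℕ) {t r : ℝ} (ht : 0 ≤ t) (hr : 1 ≤ r) :
    phi m (t / r) ≤ phi m t / r := by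
  have h0 : 0 ≤ t / r := div_nonneg ht (by linarith)
  rw [phiF_eq m h0, phiF_eq m ht, div_mul_eq_mul_div]
  apply div_le_div_of_nonneg_right _ (by linarith)
  apply mul_le_mul_of_nonneg_left _ ht
  have h1 : t / r ≤ t := div_le_self ht hr
  have h2 : Real.log (max (t / r) 1) ≤ Real.log (max t 1) :=
    Real.log_le_log (by positivity) (max_le_max_right 1 h1)
  have h3 : 0 ≤ Real.log (max (t / r) 1) := Real.log_nonneg (le_max_right _ _)
  gcongr

/-- Jensen, `ℝ≥0∞` form: average over a set of finite positive measure -/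
theorem jensen (m : ℕ) {α : Type} [MeasurableSpace α] {μ : Measure α} {s : Set α}
    (hs : MeasurableSet s) (h0 : μ s ≠ 0) (h1 : μ s ≠ ⊤) {h : α → ℝ} (hm : Measurable h)
    (hp : ∀ x, 0 ≤ h x) (hfin : ∫⁻ x in s, ENNReal.ofReal (phi m (h x)) ∂μ ≠ ⊤) :
    ENNReal.ofReal (phi m ((μ s)⁻¹ * ∫⁻ x in s, ENNReal.ofReal (h x) ∂μ).toReal) ≤
      (μ s)⁻¹ * ∫⁻ x in s, ENNReal.ofReal (phi m (h x)) ∂μ := by
  have hpm : Measurable fun x => phi m (h x) := (measurable_phi m).comp hm
  have hfin' : ∫⁻ x in s, ENNReal.ofReal (h x) ∂μ ≠ ⊤ := by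
    refine ne_top_of_le_ne_top hfin (lintegral_mono fun x => ?_)
    exact ENNReal.ofReal_le_ofReal (le_phi m (hp x))
  have i1 : IntegrableOn h s μ :=
    (lintegral_ofReal_ne_top_iff_integrable hm.aestronglyMeasurable
      (Filter.Eventually.of_forall hp)).mp hfin'
  have i2 : IntegrableOn (phi m ∘ h) s μ :=
    (lintegral_ofReal_ne_top_iff_integrable hpm.aestronglyMeasurable
      (Filter.Eventually.of_forall fun x => phi_nonneg m (hp x))).mp hfin
  have hj := (convexOn_phi m).map_set_average_le (continuousOn_phi m) isClosed_Ici h0 h1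
    (Filter.Eventually.of_forall hp) i1 i2
  have hav : ∀ g : α → ℝ, (∀ x, 0 ≤ g x) → IntegrableOn g s μ →
      (μ s)⁻¹ * ∫⁻ x in s, ENNReal.ofReal (g x) ∂μ = ENNReal.ofReal (⨍ x in s, g x ∂μ) := by
    intro g hg hi
    rw [setAverage_eq, smul_eq_mul, ENNReal.ofReal_mul (by positivity),
      ← ofReal_integral_eq_lintegral_ofReal hi (Filter.Eventually.of_forall hg)]
    congr 1
    have hpos : 0 < μ.real s := ENNReal.toReal_pos h0 h1
    rw [ENNReal.ofReal_inv_of_pos hpos, measureReal_def, ENNReal.ofReal_toReal h1]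
  rw [hav h hp i1, hav (fun x => phi m (h x)) (fun x => phi_nonneg m (hp x)) i2,
    ENNReal.toReal_ofReal]
  · exact ENNReal.ofReal_le_ofReal hj
  · rw [setAverage_eq, smul_eq_mul]
    have : 0 ≤ ∫ x in s, h x ∂μ := integral_nonneg hp
    positivity

end Zyg
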