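import Pool.Agent.Work.MP_93d592_an.B.Digit
import Pool.Agent.Work.MP_93d592_an.B.PhiF

/-!
# Cube : Theorem A on one coarse cube, and the dyadic weak type bound (modules B4, B5)

`thmA0`: from `thmA` for `f + ε`, `ε → 0⁺` (`av (f+ε) = av f + ε > 1`; the right side is continuous in `ε ≥ 0`,
`phi` is continuous on `[0,∞)`).
`cube_bound`: `thmA0` for `z ↦ (gT T j (ofReal ∘ h) z).toReal`, `w' = w + T (1,…,1)` (`lv a w' = lv a w + 2T` by `ha`;
`|w i| ≤ T` and `∑_i a c i = 2` give `-2T ≤ lv a w c ≤ 2T`), `avb_eq`, `jensen` on the cells, `volume_cell`; the set on the left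
is the union of the cells of the digit points `z` in the set of `thmA0`.
`dyadic_weak`: for every `T` sum over `j : C → ℤ` (countable), then `T → ∞` (monotone union over `T` of
`{x | ∃ w, (∀ i, |w i| ≤ T) ∧ 1 < avb ..}`, `measure_iUnion_eq_iSup` / `tendsto_measure_iUnion_atTop`).
-/

open MeasureTheory ENNReal
open scoped Classical

noncomputable section

namespace Zyg

variable {C : Type} [Fintype C] [LinearOrder C] {m : ℕ}

theorem cube_av_add {I : Type} [Fintype I] (D : Finset I) (f : (I → Bool) → ℝ) (ε : ℝ)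
    (z : I → Bool) : av D (fun z => f z + ε) z = av D f z + ε := by
  unfold av
  have h : ((cyl D z).card : ℝ) ≠ 0 := by
    exact_mod_cast (cyl_card_pos D z).ne'
  rw [Finset.sum_add_distrib, Finset.sum_const, nsmul_eq_mul, add_div, mul_div_cancel_left₀ _ h]

theorem thmA0 (a : C → Fin (m + 1) → ℕ) (ha : ∀ c, ∑ i, a c i = 2) :
    ∃ Cm : ℝ, 0 < Cm ∧ ∀ (L : ℕ) (f : Zs C L → ℝ), (∀ z, 0 ≤ f z) →
      ((Finset.univ.filter fun z => ∃ w : Fin (m + 1) → ℤ, 1 < av (D (lv a w)) f z).card : ℝ) ≤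
        Cm * ∑ z, phi m (f z) := by
  obtain ⟨Cm, hCm, h⟩ := thmA a ha
  refine ⟨Cm, hCm, fun L f hf => ?_⟩
  have hlim : Filter.Tendsto (fun ε : ℝ => Cm * ∑ z, phi m (f z + ε))
      (nhdsWithin 0 (Set.Ioi 0)) (nhds (Cm * ∑ z, phi m (f z))) := by
    refine Filter.Tendsto.const_mul _ (tendsto_finset_sum _ fun z _ => ?_)
    have h1 := (continuousOn_phi m) (f z) (hf z)
    have h2 : Filter.Tendsto (fun ε : ℝ => f z + ε) (nhdsWithin 0 (Set.Ioi 0))
        (nhdsWithin (f z) (Set.Ici 0)) := by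
      refine tendsto_nhdsWithin_iff.2 ⟨?_, ?_⟩
      · have h3 : Filter.Tendsto (fun ε : ℝ => f z + ε) (nhds 0) (nhds (f z + 0)) :=
          (continuous_const.add continuous_id).tendsto 0
        rw [add_zero] at h3
        exact h3.mono_left nhdsWithin_le_nhds
      · filter_upwards [self_mem_nhdsWithin] with ε hε
        exact add_nonneg (hf z) (le_of_lt hε)
    exact h1.tendsto.comp h2
  refine ge_of_tendsto hlim ?_
  filter_upwards [self_mem_nhdsWithin] with ε hε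
  have hε' : (0 : ℝ) < ε := hε
  refine le_trans ?_ (h L (fun z => f z + ε) fun z => add_pos_of_nonneg_of_pos (hf z) hε')
  have hsub : (Finset.univ.filter fun z => ∃ w : Fin (m + 1) → ℤ, 1 < av (D (lv a w)) f z) ⊆
      (Finset.univ.filter fun z => ∃ w : Fin (m + 1) → ℤ,
        1 < av (D (lv a w)) (fun z => f z + ε) z) := by
    intro z hz
    rw [Finset.mem_filter] at hz ⊢
    obtain ⟨w, hw⟩ := hz.2
    refine ⟨Finset.mem_univ _, w, ?_⟩
    rw [cube_av_add]
    linarith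
  exact_mod_cast Finset.card_le_card hsub

theorem cube_bound (a : C → Fin (m + 1) → ℕ) (ha : ∀ c, ∑ i, a c i = 2) :
    ∃ Cm : ℝ, 0 < Cm ∧ ∀ (h : (C → ℝ) → ℝ), Measurable h → (∀ x, 0 ≤ h x) →
      ∀ (T : ℕ) (j : C → ℤ),
      volume {x | x ∈ Qc T j ∧ ∃ w : Fin (m + 1) → ℤ, (∀ i, |w i| ≤ (T : ℤ)) ∧
        1 < avb (fun y => ENNReal.ofReal (h y)) (lv a w) (idx (lv a w) x)} ≤
      ENNReal.ofReal Cm * ∫⁻ x in Qc T j, ENNReal.ofReal (phi m (h x)) := by
  obtain ⟨Cm, hCm, hA⟩ := thmA0 a ha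
  refine ⟨Cm, hCm, fun h hm hp T j => ?_⟩
  by_cases htop : ∫⁻ x in Qc T j, ENNReal.ofReal (phi m (h x)) = ⊤
  · rw [htop, ENNReal.mul_top (by simpa using hCm)]
    exact le_top
  set g : (C → ℝ) → ℝ≥0∞ := fun y => ENNReal.ofReal (h y) with hg
  set d : ℝ≥0∞ := dens (C := C) (fun _ => 2 * (T : ℤ)) with hd
  have hd0 : d ≠ 0 := dens_ne_zero _
  have hdt : d ≠ ⊤ := dens_ne_top _
  have hcellsub : ∀ z, cell T j z ⊆ Qc T j := fun z x hx => hx.1
  have hphifin : ∀ z, ∫⁻ x in cell T j z, ENNReal.ofReal (phi m (h x)) ≠ ⊤ := fun z =>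
    ne_top_of_le_ne_top htop (lintegral_mono_set (hcellsub z))
  have hgfin : ∀ z, gT T j g z ≠ ⊤ := by
    intro z
    unfold gT
    refine ENNReal.mul_ne_top hdt (ne_top_of_le_ne_top (hphifin z) ?_)
    refine lintegral_mono fun x => ENNReal.ofReal_le_ofReal (le_phi m (hp x))
  set F : Zs C (4 * T) → ℝ := fun z => (gT T j g z).toReal with hF
  set Z : Finset (Zs C (4 * T)) :=
    Finset.univ.filter fun z => ∃ w : Fin (m + 1) → ℤ, 1 < av (D (lv a w)) F z with hZ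
  have hZc := hA (4 * T) F fun z => ENNReal.toReal_nonneg
  -- the set is contained in the union of the cells
  have hsub : {x | x ∈ Qc T j ∧ ∃ w : Fin (m + 1) → ℤ, (∀ i, |w i| ≤ (T : ℤ)) ∧
        1 < avb g (lv a w) (idx (lv a w) x)} ⊆ ⋃ z ∈ Z, cell T j z := by
    rintro x ⟨hx, w, hw, h1⟩
    have hlow : ∀ c, -2 * (T : ℤ) ≤ lv a w c := by
      intro c
      have e1 : ∑ i, (a c i : ℤ) * (-(T : ℤ)) ≤ lv a w c :=
        Finset.sum_le_sum fun i _ =>
          mul_le_mul_of_nonneg_left (abs_le.1 (hw i)).1 (Int.natCast_nonneg _)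
      rw [← Finset.sum_mul] at e1
      have e2 : (∑ i, (a c i : ℤ)) = 2 := by exact_mod_cast ha c
      rw [e2] at e1
      linarith
    have hupp : ∀ c, lv a w c ≤ 2 * (T : ℤ) := by
      intro c
      have e1 : lv a w c ≤ ∑ i, (a c i : ℤ) * (T : ℤ) :=
        Finset.sum_le_sum fun i _ =>
          mul_le_mul_of_nonneg_left (abs_le.1 (hw i)).2 (Int.natCast_nonneg _)
      rw [← Finset.sum_mul] at e1
      have e2 : (∑ i, (a c i : ℤ)) = 2 := by exact_mod_cast ha c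
      rw [e2] at e1
      linarith
    have hlv : lv a (fun i => w i + T) = fun c => lv a w c + 2 * (T : ℤ) := by
      funext c
      simp only [lv, mul_add, Finset.sum_add_distrib]
      rw [← Finset.sum_mul]
      have e2 : (∑ i, (a c i : ℤ)) = 2 := by exact_mod_cast ha c
      rw [e2]
    rw [avb_eq T (lv a w) hlow hupp hx hgfin] at h1
    have h2 : 1 < av (D (lv a fun i => w i + T)) F (dg T x) := by
      rw [hlv]
      by_contra hcon
      rw [not_lt] at hcon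
      have := ENNReal.ofReal_le_one.2 hcon
      exact absurd (lt_of_lt_of_le h1 this) (lt_irrefl _)
    rw [Set.mem_iUnion₂]
    exact ⟨dg T x, Finset.mem_filter.2 ⟨Finset.mem_univ _, _, h2⟩, hx, rfl⟩
  have hvol : ∀ z, volume (cell T j z) = d⁻¹ := fun z => volume_cell T j z
  have hjen : ∀ z, ENNReal.ofReal (phi m (F z)) ≤
      d * ∫⁻ x in cell T j z, ENNReal.ofReal (phi m (h x)) := by
    intro z
    have h0 : volume (cell T j z) ≠ 0 := by
      rw [hvol]
      exact ENNReal.inv_ne_zero.2 hdt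
    have h1 : volume (cell T j z) ≠ ⊤ := by
      rw [hvol]
      exact ENNReal.inv_ne_top.2 hd0
    have := jensen m (measurableSet_cell T j z) h0 h1 hm hp (hphifin z)
    rw [hvol, inv_inv] at this
    exact this
  have hsum : ∑ z, ∫⁻ x in cell T j z, ENNReal.ofReal (phi m (h x)) ≤
      ∫⁻ x in Qc T j, ENNReal.ofReal (phi m (h x)) := by
    rw [← lintegral_biUnion_finset (s := (Finset.univ : Finset (Zs C (4 * T)))) ?_
      (fun z _ => measurableSet_cell T j z)]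
    · refine lintegral_mono_set ?_
      intro x hx
      rw [Set.mem_iUnion₂] at hx
      obtain ⟨z, _, hz⟩ := hx
      exact hcellsub z hz
    · intro z _ z' _ hne
      refine Set.disjoint_left.2 fun x hx hx' => hne ?_
      exact hx.2.symm.trans hx'.2
  calc volume {x | x ∈ Qc T j ∧ ∃ w : Fin (m + 1) → ℤ, (∀ i, |w i| ≤ (T : ℤ)) ∧
        1 < avb g (lv a w) (idx (lv a w) x)}
      ≤ volume (⋃ z ∈ Z, cell T j z) := measure_mono hsub
    _ ≤ ∑ z ∈ Z, volume (cell T j z) := measure_biUnion_finset_le _ _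
    _ = (Z.card : ℝ≥0∞) * d⁻¹ := by
        rw [Finset.sum_congr rfl fun z _ => hvol z, Finset.sum_const, nsmul_eq_mul]
    _ ≤ (ENNReal.ofReal Cm * ∑ z, ENNReal.ofReal (phi m (F z))) * d⁻¹ := by
        refine mul_le_mul_left ?_ _
        rw [← ENNReal.ofReal_sum_of_nonneg fun z _ => phi_nonneg m ENNReal.toReal_nonneg,
          ← ENNReal.ofReal_mul hCm.le, ← ENNReal.ofReal_natCast]
        exact ENNReal.ofReal_le_ofReal hZc
    _ ≤ (ENNReal.ofReal Cm * ∑ z, d * ∫⁻ x in cell T j z, ENNReal.ofReal (phi m (h x))) * d⁻¹ := by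
        refine mul_le_mul_left (mul_le_mul_right (Finset.sum_le_sum fun z _ => hjen z) _) _
    _ = ENNReal.ofReal Cm * ∑ z, ∫⁻ x in cell T j z, ENNReal.ofReal (phi m (h x)) := by
        rw [← Finset.mul_sum, mul_assoc, mul_comm d, mul_assoc, ENNReal.mul_inv_cancel hd0 hdt,
          mul_one]
    _ ≤ ENNReal.ofReal Cm * ∫⁻ x in Qc T j, ENNReal.ofReal (phi m (h x)) :=
        mul_le_mul_right hsum _

/-- DYADIC WEAK TYPE BOUND -/
theorem dyadic_weak (a : C → Fin (m + 1) → ℕ) (ha : ∀ c, ∑ i, a c i = 2) :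
    ∃ Cm : ℝ, 0 < Cm ∧ ∀ (h : (C → ℝ) → ℝ), Measurable h → (∀ x, 0 ≤ h x) →
      volume {x | 1 < MM a 0 (fun y => ENNReal.ofReal (h y)) x} ≤
      ENNReal.ofReal Cm * ∫⁻ x, ENNReal.ofReal (phi m (h x)) := by
  obtain ⟨Cm, hCm, hA⟩ := cube_bound a ha
  refine ⟨Cm, hCm, fun h hm hp => ?_⟩
  set g : (C → ℝ) → ℝ≥0∞ := fun y => ENNReal.ofReal (h y) with hg
  set A : ℕ → Set (C → ℝ) := fun T => {x | ∃ w : Fin (m + 1) → ℤ, (∀ i, |w i| ≤ (T : ℤ)) ∧
        1 < avb g (lv a w) (idx (lv a w) x)} with hAdef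
  have hun : {x | 1 < MM a 0 g x} ⊆ ⋃ T, A T := by
    intro x hx
    rw [Set.mem_setOf_eq, MM, lt_iSup_iff] at hx
    obtain ⟨w, hw⟩ := hx
    rw [add_zero] at hw
    rw [Set.mem_iUnion]
    refine ⟨(∑ i, |w i|).toNat, w, fun i => ?_, hw⟩
    rw [Int.toNat_of_nonneg (Finset.sum_nonneg fun i _ => abs_nonneg _)]
    exact Finset.single_le_sum (f := fun i => |w i|) (fun i _ => abs_nonneg _) (Finset.mem_univ i)
  have hmono : Monotone A := by
    intro S T hST x hx
    obtain ⟨w, hw, h1⟩ := hx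
    exact ⟨w, fun i => (hw i).trans (by exact_mod_cast hST), h1⟩
  refine (measure_mono hun).trans ?_
  rw [hmono.measure_iUnion]
  refine iSup_le fun T => ?_
  have hsub : A T ⊆ ⋃ j : C → ℤ, {x | x ∈ Qc T j ∧ ∃ w : Fin (m + 1) → ℤ,
      (∀ i, |w i| ≤ (T : ℤ)) ∧ 1 < avb g (lv a w) (idx (lv a w) x)} := by
    intro x hx
    rw [Set.mem_iUnion]
    exact ⟨idx (fun _ => -2 * (T : ℤ)) x, rfl, hx⟩
  calc volume (A T) ≤ volume (⋃ j : C → ℤ, {x | x ∈ Qc T j ∧ ∃ w : Fin (m + 1) → ℤ,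
      (∀ i, |w i| ≤ (T : ℤ)) ∧ 1 < avb g (lv a w) (idx (lv a w) x)}) := measure_mono hsub
    _ ≤ ∑' j : C → ℤ, volume {x | x ∈ Qc T j ∧ ∃ w : Fin (m + 1) → ℤ,
      (∀ i, |w i| ≤ (T : ℤ)) ∧ 1 < avb g (lv a w) (idx (lv a w) x)} := measure_iUnion_le _
    _ ≤ ∑' j : C → ℤ, ENNReal.ofReal Cm * ∫⁻ x in Qc T j, ENNReal.ofReal (phi m (h x)) :=
        ENNReal.tsum_le_tsum fun j => hA h hm hp T j
    _ = ENNReal.ofReal Cm * ∑' j : C → ℤ, ∫⁻ x in Qc T j, ENNReal.ofReal (phi m (h x)) :=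
        ENNReal.tsum_mul_left
    _ = ENNReal.ofReal Cm * ∫⁻ x in ⋃ j : C → ℤ, Qc T j, ENNReal.ofReal (phi m (h x)) := by
        rw [lintegral_iUnion (s := fun j => Qc T j)
          (fun j => (measurableSet_bx _ _ : MeasurableSet (Qc T j)))]
        intro j j' hne
        refine Set.disjoint_left.2 fun x hx hx' => hne ?_
        exact (show idx _ x = j from hx).symm.trans hx'
    _ ≤ ENNReal.ofReal Cm * ∫⁻ x, ENNReal.ofReal (phi m (h x)) :=
        mul_le_mul_right (setLIntegral_le_lintegral _ _) _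

end Zyg
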