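import Pool.Agent.Work.MP_93d592_an.B.Digit
import Pool.Agent.Work.MP_93d592_an.B.PhiF

/-!
# Cube_a : `thmA0`, Theorem A on one coarse cube for nonnegative functions (module B4)

From `thmA` for `f + ε`, `ε → 0⁺`.
-/

open MeasureTheory ENNReal
open scoped Classical

noncomputable section

namespace Zyg

variable {C : Type} [Fintype C] [LinearOrder C] {m : ℕ}

theorem thmA0 (a : C → Fin (m + 1) → ℕ) (ha : ∀ c, ∑ i, a c i = 2) :
    ∃ Cm : ℝ, 0 < Cm ∧ ∀ (L : ℕ) (f : Zs C L → ℝ), (∀ z, 0 ≤ f z) →
      ((Finset.univ.filter fun z => ∃ w : Fin (m + 1) → ℤ, 1 < av (D (lv a w)) f z).card : ℝ) ≤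
        Cm * ∑ z, phi m (f z) := by
  obtain ⟨Cm, hC, h⟩ := thmA a ha
  refine ⟨Cm, hC, ?_⟩
  intro L f hf
  have hstep : ∀ ε : ℝ, 0 < ε →
      ((Finset.univ.filter fun z => ∃ w : Fin (m + 1) → ℤ, 1 < av (D (lv a w)) f z).card : ℝ) ≤
        Cm * ∑ z, phi m (f z + ε) := by
    intro ε hε
    have h1 := h L (fun z => f z + ε) (fun z => by have := hf z; linarith)
    refine le_trans ?_ h1
    have hsub : (Finset.univ.filter fun z => ∃ w : Fin (m + 1) → ℤ, 1 < av (D (lv a w)) f z) ⊆
        (Finset.univ.filter fun z => ∃ w : Fin (m + 1) → ℤ,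
          1 < av (D (lv a w)) (fun z => f z + ε) z) := by
      intro z hz
      obtain ⟨_, w, hw⟩ := Finset.mem_filter.mp hz
      refine Finset.mem_filter.mpr ⟨Finset.mem_univ _, w, lt_of_lt_of_le hw ?_⟩
      unfold av
      apply div_le_div_of_nonneg_right _ (by positivity)
      apply Finset.sum_le_sum
      intro z' _
      linarith
    exact_mod_cast Finset.card_le_card hsub
  have hcont : ContinuousWithinAt (fun ε : ℝ => Cm * ∑ z, phi m (f z + ε)) (Set.Ioi 0) 0 := by
    apply ContinuousWithinAt.mul continuousWithinAt_const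
    apply tendsto_finsetSum
    intro z _
    have h1 : ContinuousWithinAt (phi m) (Set.Ici 0) (f z + 0) :=
      continuousOn_phi m _ (by simp only [Set.mem_Ici, add_zero]; exact hf z)
    have h2 : ContinuousWithinAt (fun ε : ℝ => f z + ε) (Set.Ioi 0) 0 :=
      (continuous_const.add continuous_id).continuousWithinAt
    exact h1.comp h2 (fun ε hε => by
      have := hf z
      have h3 : (0 : ℝ) < ε := hε
      simp only [Set.mem_Ici]
      linarith)
  have hlim := hcont.tendsto
  simp only [add_zero] at hlim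
  refine ge_of_tendsto hlim ?_
  filter_upwards [self_mem_nhdsWithin] with ε hε
  exact hstep ε hε

end Zyg
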