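import Pool.Agent.Work.MP_93d592_an.B.Box

/-!
# Digit : binary digits of the points of a dyadic cube (module B3)

`T : ℕ`; coarse level `-2T` in all coordinates, fine level `2T`, `4T` digits per coordinate.
The digit `(c,k)` of `x` is the parity of `⌊2^(k+1-2T) x_c⌋`.  Since `⌊2 y⌋ = 2 ⌊y⌋ + ε`, `ε ∈ {0,1}`, the indices
`⌊2^(k-2T) x_c⌋`, `k ≤ r`, are determined by `⌊2^(-2T) x_c⌋` and the digits `(c,k')`, `k' < r`, and conversely
(induction on `r`).
`bx_eq`: `x'` is in the box of `x` of level `l` (`-2T ≤ l c ≤ 2T`) iff it is in the same coarse cube and has the same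
digits `(c,k)`, `k < l c + 2T` (that is `(c,k) ∈ D (fun c => l c + 2T)`).
`cell_eq`: for every `z` there is a fine index `j'` with `{x ∈ coarse cube j, dg x = z} = bx (2T) j'`
(recursion `J_0 = j`, `J_(k+1) = 2 J_k + ε_k`).
-/

open MeasureTheory ENNReal
open scoped Classical

noncomputable section

namespace Zyg

variable {C : Type} [Fintype C] [LinearOrder C] {m : ℕ}

/-- the digits of `x` -/
def dg (T : ℕ) (x : C → ℝ) : Zs C (4 * T) :=
  fun i => decide (⌊(2 : ℝ) ^ ((i.2.1 : ℤ) + 1 - 2 * T) * x i.1⌋ % 2 = 1)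

/-- coarse cubes -/
def Qc (T : ℕ) (j : C → ℤ) : Set (C → ℝ) := bx (fun _ => -2 * (T : ℤ)) j

/-- the fine cube with the digits `z` in the coarse cube `j` -/
def cell (T : ℕ) (j : C → ℤ) (z : Zs C (4 * T)) : Set (C → ℝ) := {x | x ∈ Qc T j ∧ dg T x = z}

/-- the recursion for the indices -/
def Digit_J (j0 : ℤ) (b : ℕ → Bool) : ℕ → ℤ
  | 0 => j0
  | k + 1 => 2 * Digit_J j0 b k + (if b k then 1 else 0)

lemma Digit_iff {F : ℕ → ℤ} (hF : ∀ k, F (k + 1) / 2 = F k) (j0 : ℤ) (b : ℕ → Bool) (r : ℕ) :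
    F r = Digit_J j0 b r ↔ (F 0 = j0 ∧ ∀ k < r, decide (F (k + 1) % 2 = 1) = b k) := by
  induction r with
  | zero => simp [Digit_J]
  | succ r ih =>
    have h1 := hF r
    constructor
    · intro h
      rw [Digit_J] at h
      by_cases hb : b r = true
      · rw [if_pos hb] at h
        obtain ⟨h2, h3⟩ := ih.1 (by omega)
        refine ⟨h2, fun k hk => ?_⟩
        rcases Nat.lt_succ_iff_lt_or_eq.1 hk with hk | rfl
        · exact h3 k hk
        · rw [hb, decide_eq_true_iff]; omega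
      · rw [if_neg hb] at h
        obtain ⟨h2, h3⟩ := ih.1 (by omega)
        refine ⟨h2, fun k hk => ?_⟩
        rcases Nat.lt_succ_iff_lt_or_eq.1 hk with hk | rfl
        · exact h3 k hk
        · rw [Bool.not_eq_true] at hb
          rw [hb, decide_eq_false_iff_not]; omega
    · rintro ⟨h2, h3⟩
      have h4 := ih.2 ⟨h2, fun k hk => h3 k (by omega)⟩
      have h5 := h3 r (by omega)
      rw [Digit_J]
      by_cases hb : b r = true
      · rw [if_pos hb]
        rw [hb, decide_eq_true_iff] at h5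
        omega
      · rw [if_neg hb]
        rw [Bool.not_eq_true] at hb
        rw [hb, decide_eq_false_iff_not] at h5
        omega

/-- indices of a real number -/
def Digit_F (T : ℕ) (y : ℝ) (k : ℕ) : ℤ := ⌊(2 : ℝ) ^ ((k : ℤ) - 2 * T) * y⌋

lemma Digit_F_half (T : ℕ) (y : ℝ) (k : ℕ) : Digit_F T y (k + 1) / 2 = Digit_F T y k := by
  have e : (2 : ℝ) ^ (((k + 1 : ℕ) : ℤ) - 2 * T) * y = 2 * ((2 : ℝ) ^ ((k : ℤ) - 2 * T) * y) := by
    rw [show (((k + 1 : ℕ) : ℤ) - 2 * T) = 1 + ((k : ℤ) - 2 * T) by push_cast; ring,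
      zpow_add₀ (by norm_num), zpow_one]
    ring
  unfold Digit_F
  rw [e]
  generalize (2 : ℝ) ^ ((k : ℤ) - 2 * T) * y = w
  have h1 : 2 * ⌊w⌋ ≤ ⌊2 * w⌋ := by
    rw [Int.le_floor]
    push_cast
    linarith [Int.floor_le w]
  have h2 : ⌊2 * w⌋ < 2 * ⌊w⌋ + 2 := by
    rw [Int.floor_lt]
    push_cast
    linarith [Int.lt_floor_add_one w]
  omega

lemma Digit_dg (T : ℕ) (x : C → ℝ) (c : C) (k : ℕ) (hk : k < 4 * T) :
    dg T x (c, ⟨k, hk⟩) = decide (Digit_F T (x c) (k + 1) % 2 = 1) := by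
  unfold dg Digit_F
  simp only [Nat.cast_add, Nat.cast_one]

lemma Digit_mem_Qc {T : ℕ} {j : C → ℤ} {x : C → ℝ} :
    x ∈ Qc T j ↔ ∀ c, Digit_F T (x c) 0 = j c := by
  unfold Qc bx idx Digit_F
  simp only [Set.mem_setOf_eq, funext_iff, Nat.cast_zero, zero_sub, neg_mul]

lemma Digit_idx {T : ℕ} {l : C → ℤ} (h1 : ∀ c, -2 * (T : ℤ) ≤ l c) (x : C → ℝ) (c : C) :
    idx l x c = Digit_F T (x c) (l c + 2 * T).toNat := by
  unfold idx Digit_F
  have : (((l c + 2 * (T : ℤ)).toNat : ℕ) : ℤ) = l c + 2 * T := by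
    have := h1 c
    omega
  rw [this, add_sub_cancel_right]

theorem cell_eq (T : ℕ) (j : C → ℤ) (z : Zs C (4 * T)) :
    ∃ j' : C → ℤ, cell T j z = bx (fun _ => 2 * (T : ℤ)) j' := by
  refine ⟨fun c => Digit_J (j c) (fun k => if h : k < 4 * T then z (c, ⟨k, h⟩) else false)
    (4 * T), ?_⟩
  ext x
  have hb : x ∈ bx (fun _ => 2 * (T : ℤ)) (fun c => Digit_J (j c)
      (fun k => if h : k < 4 * T then z (c, ⟨k, h⟩) else false) (4 * T)) ↔
      ∀ c, Digit_F T (x c) (4 * T) = Digit_J (j c)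
        (fun k => if h : k < 4 * T then z (c, ⟨k, h⟩) else false) (4 * T) := by
    unfold bx
    rw [Set.mem_setOf_eq, funext_iff]
    refine forall_congr' fun c => ?_
    rw [Digit_idx (T := T) (fun _ => by omega)]
    rw [show (2 * (T : ℤ) + 2 * T).toNat = 4 * T by omega]
  rw [hb]
  constructor
  · rintro ⟨h1, h2⟩ c
    rw [Digit_iff (Digit_F_half T (x c))]
    refine ⟨Digit_mem_Qc.1 h1 c, fun k hk => ?_⟩
    rw [dif_pos hk, ← h2, Digit_dg]
  · intro h
    have h' := fun c => (Digit_iff (Digit_F_half T (x c)) _ _ _).1 (h c)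
    refine ⟨Digit_mem_Qc.2 fun c => (h' c).1, ?_⟩
    funext i
    obtain ⟨c, k, hk⟩ := i
    rw [Digit_dg, (h' c).2 k hk, dif_pos hk]

theorem measurableSet_cell (T : ℕ) (j : C → ℤ) (z : Zs C (4 * T)) :
    MeasurableSet (cell T j z) := by
  obtain ⟨j', h⟩ := cell_eq T j z
  rw [h]
  exact measurableSet_bx _ _

theorem volume_cell (T : ℕ) (j : C → ℤ) (z : Zs C (4 * T)) :
    volume (cell T j z) = (dens (C := C) fun _ => 2 * (T : ℤ))⁻¹ := by
  obtain ⟨j', h⟩ := cell_eq T j z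
  rw [h]
  exact volume_bx _ _

/-- number of the digit points: the coarse cube has volume `2^(4T n)` times the fine one -/
theorem dens_fine (T : ℕ) : dens (C := C) (fun _ => 2 * (T : ℤ)) =
    (Fintype.card (Zs C (4 * T)) : ℝ≥0∞) * dens (C := C) (fun _ => -2 * (T : ℤ)) := by
  unfold dens Zs
  rw [Finset.prod_const, Finset.prod_const, Fintype.card_fun, Fintype.card_bool,
    Fintype.card_prod, Fintype.card_fin, Finset.card_univ, mul_comm (Fintype.card C) (4 * T),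
    pow_mul, Nat.cast_pow, ← mul_pow]
  congr 1
  have h2 : ((2 ^ (4 * T) : ℕ) : ℝ≥0∞) = ENNReal.ofReal (2 ^ (4 * T)) := by
    rw [ENNReal.ofReal_pow (by norm_num)]
    push_cast
    norm_num
  rw [h2, ← ENNReal.ofReal_mul (by positivity)]
  congr 1
  rw [← zpow_natCast, ← zpow_add₀ (by norm_num)]
  congr 1
  push_cast
  ring

theorem bx_eq (T : ℕ) (l : C → ℤ) (h1 : ∀ c, -2 * (T : ℤ) ≤ l c) (h2 : ∀ c, l c ≤ 2 * (T : ℤ))
    {j : C → ℤ} {x : C → ℝ} (hx : x ∈ Qc T j) :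
    bx l (idx l x) = ⋃ z ∈ cyl (D fun c => l c + 2 * (T : ℤ)) (dg T x), cell T j z := by
  have hx0 := Digit_mem_Qc.1 hx
  ext x'
  have hr : x' ∈ (⋃ z ∈ cyl (D fun c => l c + 2 * (T : ℤ)) (dg T x), cell T j z) ↔
      x' ∈ Qc T j ∧ ∀ i ∈ D (fun c => l c + 2 * (T : ℤ)), dg T x' i = dg T x i := by
    simp only [Set.mem_iUnion, exists_prop]
    constructor
    · rintro ⟨z, hz, hx', rfl⟩
      exact ⟨hx', mem_cyl.1 hz⟩
    · rintro ⟨hx', hz⟩
      exact ⟨dg T x', mem_cyl.2 hz, hx', rfl⟩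
  rw [hr]
  have hl : x' ∈ bx l (idx l x) ↔ ∀ c, Digit_F T (x' c) (l c + 2 * T).toNat =
      Digit_F T (x c) (l c + 2 * T).toNat := by
    unfold bx
    rw [Set.mem_setOf_eq, funext_iff]
    refine forall_congr' fun c => ?_
    rw [Digit_idx h1, Digit_idx h1]
  rw [hl]
  have key : ∀ c, (Digit_F T (x' c) (l c + 2 * T).toNat = Digit_F T (x c) (l c + 2 * T).toNat ↔
      (Digit_F T (x' c) 0 = j c ∧ ∀ k < (l c + 2 * T).toNat,
        decide (Digit_F T (x' c) (k + 1) % 2 = 1) = decide (Digit_F T (x c) (k + 1) % 2 = 1))) := by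
    intro c
    have e : Digit_F T (x c) (l c + 2 * T).toNat = Digit_J (j c)
        (fun k => decide (Digit_F T (x c) (k + 1) % 2 = 1)) (l c + 2 * T).toNat :=
      (Digit_iff (Digit_F_half T (x c)) _ _ _).2 ⟨hx0 c, fun k _ => rfl⟩
    rw [e]
    exact Digit_iff (Digit_F_half T (x' c)) _ _ _
  rw [forall_congr' key]
  constructor
  · intro h
    refine ⟨Digit_mem_Qc.2 fun c => (h c).1, ?_⟩
    rintro ⟨c, k, hk⟩ hi
    rw [mem_D] at hi
    unfold kl at hi
    simp only at hi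
    rw [Digit_dg, Digit_dg]
    exact (h c).2 k (by omega)
  · rintro ⟨h3, h4⟩ c
    refine ⟨Digit_mem_Qc.1 h3 c, fun k hk => ?_⟩
    have hk' : k < 4 * T := by
      have := h2 c
      omega
    have := h4 (c, ⟨k, hk'⟩) (by
      rw [mem_D]
      unfold kl
      simp only
      omega)
    rw [Digit_dg, Digit_dg] at this
    exact this

/-- the average of `g` over the cell -/
def gT (T : ℕ) (j : C → ℤ) (g : (C → ℝ) → ℝ≥0∞) (z : Zs C (4 * T)) : ℝ≥0∞ :=
  dens (C := C) (fun _ => 2 * (T : ℤ)) * ∫⁻ x in cell T j z, g x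

lemma Digit_disj (T : ℕ) (j : C → ℤ) (S : Set (Zs C (4 * T))) :
    S.Pairwise (Function.onFun Disjoint (cell T j)) := by
  intro z _ z' _ hne
  rw [Function.onFun, Set.disjoint_left]
  rintro x ⟨_, h1⟩ ⟨_, h2⟩
  exact hne (h1.symm.trans h2)

/-- averages over boxes are averages over digits -/
theorem avb_eq (T : ℕ) (l : C → ℤ) (h1 : ∀ c, -2 * (T : ℤ) ≤ l c) (h2 : ∀ c, l c ≤ 2 * (T : ℤ))
    {j : C → ℤ} {x : C → ℝ} (hx : x ∈ Qc T j) {g : (C → ℝ) → ℝ≥0∞}
    (hfin : ∀ z, gT T j g z ≠ ⊤) :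
    avb g l (idx l x) =
      ENNReal.ofReal (av (D fun c => l c + 2 * (T : ℤ)) (fun z => (gT T j g z).toReal) (dg T x)) := by
  set Dl := D (L := 4 * T) (fun c => l c + 2 * (T : ℤ)) with hDl
  set N := (cyl Dl (dg T x)).card with hN
  have hNpos : 0 < N := cyl_card_pos _ _
  have hN0 : (N : ℝ≥0∞) ≠ 0 := by exact_mod_cast hNpos.ne'
  have hNt : (N : ℝ≥0∞) ≠ ⊤ := ENNReal.natCast_ne_top N
  have hv : (dens l)⁻¹ = (N : ℝ≥0∞) * (dens (C := C) fun _ => 2 * (T : ℤ))⁻¹ := by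
    rw [← volume_bx l (idx l x), bx_eq T l h1 h2 hx,
      measure_biUnion_finset (Digit_disj T j _) (fun z _ => measurableSet_cell T j z)]
    simp only [volume_cell]
    rw [Finset.sum_const, nsmul_eq_mul]
  have hd : dens l = (N : ℝ≥0∞)⁻¹ * dens (C := C) (fun _ => 2 * (T : ℤ)) := by
    rw [← inv_inv (dens l), hv, ENNReal.mul_inv (Or.inl hN0) (Or.inl hNt), inv_inv]
  unfold avb
  rw [bx_eq T l h1 h2 hx, lintegral_biUnion_finset (Digit_disj T j _)
    (fun z _ => measurableSet_cell T j z), hd, mul_assoc, Finset.mul_sum]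
  unfold av
  rw [ENNReal.ofReal_div_of_pos (by exact_mod_cast hNpos), ENNReal.ofReal_natCast,
    ENNReal.ofReal_sum_of_nonneg (fun z _ => ENNReal.toReal_nonneg), ENNReal.div_eq_inv_mul]
  congr 1
  refine Finset.sum_congr rfl fun z _ => ?_
  rw [ENNReal.ofReal_toReal (hfin z)]
  rfl

end Zyg
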