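import Pool.Agent.Work.MP_93d592_an.B.PhiF
import Pool.Agent.Work.MP_93d592_an.Stmt

/-!
# Final_phi : `phi_fin` (part of module B11)
-/

open MeasureTheory ENNReal
open scoped Classical

noncomputable section

namespace SiegelPoisson

theorem phiFin_real (k : ℕ) {t : ℝ} (ht : 0 < t) :
    Zyg.phi k t ≤ 2 ^ k * Real.exp 1 + 2 ^ k * 2 * (t * max (Real.log t) 0 ^ k) := by
  unfold Zyg.phi
  set M := max (Real.log t) 0 with hM
  have hM0 : 0 ≤ M := le_max_right _ _
  have h1 : (1 + M) ^ k ≤ 2 ^ k * (1 + M ^ k) := by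
    rcases le_total M 1 with h | h
    · calc (1 + M) ^ k ≤ 2 ^ k := by
            apply pow_le_pow_left₀ (by positivity)
            linarith
        _ ≤ 2 ^ k * (1 + M ^ k) := by
            have : (0 : ℝ) ≤ M ^ k := by positivity
            nlinarith [show (0 : ℝ) < 2 ^ k by positivity]
    · calc (1 + M) ^ k ≤ (2 * M) ^ k := by
            apply pow_le_pow_left₀ (by positivity)
            linarith
        _ = 2 ^ k * M ^ k := by rw [mul_pow]
        _ ≤ 2 ^ k * (1 + M ^ k) := by
            nlinarith [show (0 : ℝ) < 2 ^ k by positivity]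
  have h2 : t ≤ Real.exp 1 + t * M ^ k := by
    rcases le_total t (Real.exp 1) with h | h
    · have : 0 ≤ t * M ^ k := by positivity
      linarith
    · have h3 : 1 ≤ Real.log t := by
        rw [Real.le_log_iff_exp_le ht]
        exact h
      have h4 : 1 ≤ M := h3.trans (le_max_left _ _)
      have h5 : 1 ≤ M ^ k := one_le_pow₀ h4
      have h6 : 0 < Real.exp 1 := Real.exp_pos 1
      nlinarith
  calc t * (1 + M) ^ k ≤ t * (2 ^ k * (1 + M ^ k)) := by gcongr
    _ = 2 ^ k * (t + t * M ^ k) := by ring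
    _ ≤ 2 ^ k * ((Real.exp 1 + t * M ^ k) + t * M ^ k) := by gcongr
    _ = _ := by ring

/-- `∫ phi (|f|) < ∞`: `(1+x)^k ≤ 2^k (1 + x^k)`, `|f| ≤ e + |f| (log⁺|f|)^k` on the bounded support. -/
theorem phi_fin (m k : ℕ) (f : (Ix m → ℝ) → ℝ) (hb : Bornology.IsBounded (Function.support f))
    (_hf : AEStronglyMeasurable f volume)
    (hL : ∫⁻ x, ENNReal.ofReal (|f x| * max (Real.log |f x|) 0 ^ k) < ⊤) :
    ∫⁻ x, ENNReal.ofReal (Zyg.phi k |f x|) < ⊤ := by
  obtain ⟨R, hR⟩ := hb.subset_closedBall 0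
  have key : ∀ x, ENNReal.ofReal (Zyg.phi k |f x|) ≤
      (Metric.closedBall (0 : Ix m → ℝ) R).indicator
        (fun _ => ENNReal.ofReal (2 ^ k * Real.exp 1)) x +
        ENNReal.ofReal (2 ^ k * 2) * ENNReal.ofReal (|f x| * max (Real.log |f x|) 0 ^ k) := by
    intro x
    by_cases hx : f x = 0
    · have : Zyg.phi k |f x| = 0 := by simp [Zyg.phi, hx]
      rw [this, ENNReal.ofReal_zero]
      exact zero_le
    · have hx' : x ∈ Metric.closedBall (0 : Ix m → ℝ) R := hR hx
      rw [Set.indicator_of_mem hx', ← ENNReal.ofReal_mul (by positivity),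
        ← ENNReal.ofReal_add (by positivity) (by positivity)]
      exact ENNReal.ofReal_le_ofReal (phiFin_real k (abs_pos.2 hx))
  refine (lintegral_mono key).trans_lt ?_
  rw [lintegral_add_left]
  · rw [lintegral_indicator Metric.isClosed_closedBall.measurableSet, setLIntegral_const,
      lintegral_const_mul' _ _ ENNReal.ofReal_ne_top]
    refine ENNReal.add_lt_top.2 ⟨ENNReal.mul_lt_top ENNReal.ofReal_lt_top ?_,
      ENNReal.mul_lt_top ENNReal.ofReal_lt_top hL⟩
    exact Metric.isBounded_closedBall.measure_lt_top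
  · exact measurable_const.indicator Metric.isClosed_closedBall.measurableSet

end SiegelPoisson
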