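import Pool.Agent.Work.MP_93d592_an.B.Shift_a

open MeasureTheory ENNReal
open scoped Classical

noncomputable section

namespace Zyg

variable {C : Type} [Fintype C] [LinearOrder C] {m : ℕ}

theorem Shift_kap_nonneg (s : ℤ) : 0 ≤ kap s := by
  unfold kap
  have : 0 ≤ Real.logb 2 (1 + |(s : ℝ)|) :=
    Real.logb_nonneg (by norm_num) (by have := abs_nonneg (s : ℝ); linarith)
  linarith

theorem Shift_measurableSet (R : Set ((C → ℤ) × (C → ℤ))) (u : C → ℤ) :
    MeasurableSet {x : C → ℝ | ∃ l : C → ℤ, (l, idx l x + u) ∈ R} := by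
  have : {x : C → ℝ | ∃ l : C → ℤ, (l, idx l x + u) ∈ R} =
      ⋃ l : C → ℤ, idx l ⁻¹' {j | (l, j + u) ∈ R} := by
    ext x
    simp
  rw [this]
  refine MeasurableSet.iUnion fun l => measurable_idx l ?_
  exact (Set.to_countable _).measurableSet

omit [Fintype C] in
theorem Shift_idx_update (l : C → ℤ) (x : C → ℝ) (c : C) (t : ℝ) :
    idx l (Function.update x c t) = Function.update (idx l x) c ⌊(2 : ℝ) ^ (l c) * t⌋ := by
  funext d
  unfold idx
  by_cases h : d = c
  · subst h; simp
  · simp [Function.update_of_ne h]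

/-- one coordinate -/
theorem Shift_one (R : Set ((C → ℤ) × (C → ℤ))) (c : C) (s : ℤ) :
    volume {x : C → ℝ | ∃ l : C → ℤ, (l, idx l x + Pi.single c s) ∈ R} ≤
      ENNReal.ofReal (kap s) * volume {x : C → ℝ | ∃ l : C → ℤ, (l, idx l x + 0) ∈ R} := by
  set S : Set (C → ℝ) := {x | ∃ l : C → ℤ, (l, idx l x + Pi.single c s) ∈ R} with hS
  set S0 : Set (C → ℝ) := {x | ∃ l : C → ℤ, (l, idx l x + 0) ∈ R} with hS0
  have mS : MeasurableSet S := Shift_measurableSet R _
  have mS0 : MeasurableSet S0 := Shift_measurableSet R _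
  have key : ∀ x : C → ℝ, ∫⁻ t : ℝ, S.indicator 1 (Function.update x c t) ≤
      ENNReal.ofReal (kap s) * ∫⁻ t : ℝ, S0.indicator 1 (Function.update x c t) := by
    intro x
    have e1 : ∀ T : Set (C → ℝ), MeasurableSet T →
        ∫⁻ t : ℝ, T.indicator (1 : (C → ℝ) → ℝ≥0∞) (Function.update x c t) =
        volume {t : ℝ | Function.update x c t ∈ T} := by
      intro T hT
      have h1 : (fun t : ℝ => T.indicator (1 : (C → ℝ) → ℝ≥0∞) (Function.update x c t)) =
          ({t : ℝ | Function.update x c t ∈ T}).indicator 1 := by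
        funext t
        by_cases h : Function.update x c t ∈ T
        · rw [Set.indicator_of_mem h, Set.indicator_of_mem (by exact h)]
          rfl
        · rw [Set.indicator_of_notMem h, Set.indicator_of_notMem (by exact h)]
      rw [h1, lintegral_indicator_one]
      exact (measurable_update x) hT
    rw [e1 S mS, e1 S0 mS0]
    have h2 := shift1 {p : ℤ × ℤ | ∃ l : C → ℤ, l c = p.1 ∧
      (l, Function.update (idx l x) c p.2) ∈ R} s
    convert h2 using 2
    · ext t
      simp only [hS, Set.mem_ofPred_eq]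
      constructor
      · rintro ⟨l, hl⟩
        refine ⟨l c, l, rfl, ?_⟩
        convert hl using 2
        rw [Shift_idx_update]
        funext d
        by_cases h : d = c
        · subst h; simp
        · simp [Function.update_of_ne h, Pi.single_eq_of_ne h]
      · rintro ⟨lc, l, rfl, hl⟩
        refine ⟨l, ?_⟩
        convert hl using 2
        rw [Shift_idx_update]
        funext d
        by_cases h : d = c
        · subst h; simp
        · simp [Function.update_of_ne h, Pi.single_eq_of_ne h]
    · congr 1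
      ext t
      simp only [hS0, Set.mem_ofPred_eq, add_zero]
      constructor
      · rintro ⟨l, hl⟩
        refine ⟨l c, l, rfl, ?_⟩
        rw [← Shift_idx_update]
        exact hl
      · rintro ⟨lc, l, rfl, hl⟩
        refine ⟨l, ?_⟩
        rw [Shift_idx_update]
        exact hl
  have mf : Measurable (S.indicator (1 : (C → ℝ) → ℝ≥0∞)) := measurable_one.indicator mS
  have mf0 : Measurable (S0.indicator (1 : (C → ℝ) → ℝ≥0∞)) := measurable_one.indicator mS0
  have e2 : ∀ T : Set (C → ℝ), MeasurableSet T →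
      volume T = (∫⋯∫⁻_(Finset.univ.erase c), (fun x => ∫⁻ t : ℝ,
        T.indicator (1 : (C → ℝ) → ℝ≥0∞) (Function.update x c t)) ∂(fun _ => volume)) 0 := by
    intro T hT
    rw [← lintegral_indicator_one hT, volume_pi,
      lintegral_eq_lmarginal_univ (μ := fun _ : C => (volume : Measure ℝ)) (0 : C → ℝ),
      lmarginal_erase' (μ := fun _ : C => (volume : Measure ℝ)) _ (measurable_one.indicator hT)
        (Finset.mem_univ c)]
  rw [e2 S mS, e2 S0 mS0]
  calc (∫⋯∫⁻_(Finset.univ.erase c), (fun x => ∫⁻ t : ℝ,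
        S.indicator (1 : (C → ℝ) → ℝ≥0∞) (Function.update x c t)) ∂(fun _ => volume)) 0
      ≤ (∫⋯∫⁻_(Finset.univ.erase c), (fun x => ENNReal.ofReal (kap s) * ∫⁻ t : ℝ,
        S0.indicator (1 : (C → ℝ) → ℝ≥0∞) (Function.update x c t)) ∂(fun _ => volume)) 0 :=
        lmarginal_mono key 0
    _ = ENNReal.ofReal (kap s) * (∫⋯∫⁻_(Finset.univ.erase c), (fun x => ∫⁻ t : ℝ,
        S0.indicator (1 : (C → ℝ) → ℝ≥0∞) (Function.update x c t)) ∂(fun _ => volume)) 0 := by
        unfold lmarginal
        rw [lintegral_const_mul' _ _ ENNReal.ofReal_ne_top]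

theorem shift (R : Set ((C → ℤ) × (C → ℤ))) (s : C → ℤ) :
    volume {x : C → ℝ | ∃ l : C → ℤ, (l, idx l x + s) ∈ R} ≤
      ENNReal.ofReal (∏ c, kap (s c)) * volume {x : C → ℝ | ∃ l : C → ℤ, (l, idx l x) ∈ R} := by
  have key : ∀ A : Finset C,
      volume {x : C → ℝ | ∃ l : C → ℤ, (l, idx l x + (fun c => if c ∈ A then s c else 0)) ∈ R} ≤
      ENNReal.ofReal (∏ c ∈ A, kap (s c)) *
        volume {x : C → ℝ | ∃ l : C → ℤ, (l, idx l x) ∈ R} := by
    intro A
    induction A using Finset.induction_on with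
    | empty =>
      simp only [Finset.notMem_empty, if_false, Finset.prod_empty, ENNReal.ofReal_one, one_mul]
      refine le_of_eq ?_
      congr 1
      ext x
      have : ∀ l : C → ℤ, idx l x + (fun _ => (0 : ℤ)) = idx l x := fun l => add_zero _
      simp only [Set.mem_ofPred_eq, this]
    | insert c A hc ih =>
      have h1 := Shift_one {p : (C → ℤ) × (C → ℤ) |
        (p.1, p.2 + (fun c => if c ∈ A then s c else 0)) ∈ R} c (s c)
      have e1 : {x : C → ℝ | ∃ l : C → ℤ,
          (l, idx l x + (fun d => if d ∈ insert c A then s d else 0)) ∈ R} =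
          {x : C → ℝ | ∃ l : C → ℤ, (l, idx l x + Pi.single c (s c)) ∈
            {p : (C → ℤ) × (C → ℤ) |
              (p.1, p.2 + (fun c => if c ∈ A then s c else 0)) ∈ R}} := by
        ext x
        simp only [Set.mem_ofPred_eq]
        refine exists_congr fun l => ?_
        have : idx l x + (fun d => if d ∈ insert c A then s d else 0) =
            idx l x + Pi.single c (s c) + (fun c => if c ∈ A then s c else 0) := by
          funext d
          simp only [Pi.add_apply, Finset.mem_insert]
          by_cases h : d = c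
          · subst h; simp [hc]
          · simp [h]
        rw [this]
      rw [e1]
      refine h1.trans ?_
      rw [Finset.prod_insert hc, ENNReal.ofReal_mul (Shift_kap_nonneg _), mul_assoc]
      refine mul_le_mul_right ?_ _
      refine le_trans (le_of_eq ?_) ih
      congr 1
      ext x
      simp only [Set.mem_ofPred_eq, add_zero]
  have h2 := key Finset.univ
  simpa using h2

/-- `R = {(l,j) | ∃ w, l = lv a w ∧ λ < avb g l j}` -/
theorem MM_shift (a : C → Fin m → ℕ) (s : C → ℤ) (g : (C → ℝ) → ℝ≥0∞) (r : ℝ≥0∞) :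
    volume {x | r < MM a s g x} ≤
      ENNReal.ofReal (∏ c, kap (s c)) * volume {x | r < MM a 0 g x} := by
  have h1 := shift {p : (C → ℤ) × (C → ℤ) | ∃ w : Fin m → ℤ, p.1 = lv a w ∧ r < avb g p.1 p.2} s
  have e : ∀ u : C → ℤ, {x : C → ℝ | r < MM a u g x} =
      {x : C → ℝ | ∃ l : C → ℤ, (l, idx l x + u) ∈
        {p : (C → ℤ) × (C → ℤ) | ∃ w : Fin m → ℤ, p.1 = lv a w ∧ r < avb g p.1 p.2}} := by
    intro u
    ext x
    simp only [MM, lt_iSup_iff, Set.mem_ofPred_eq]
    constructor
    · rintro ⟨w, hw⟩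
      exact ⟨lv a w, w, rfl, hw⟩
    · rintro ⟨l, w, rfl, hw⟩
      exact ⟨w, hw⟩
  rw [e s, e 0]
  simp only [add_zero]
  exact h1

end Zyg
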