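import Pool.Agent.Work.MP_93d592_an.B.KerUse
import Pool.Agent.Work.MP_93d592_an.B.Cube
import Pool.Agent.Work.MP_93d592_an.B.Shift
import Pool.Agent.Work.MP_93d592_an.B.Adding
import Pool.Agent.Work.MP_93d592_an.B.Final_phi

/-!
# Final : assembly (module B11)
-/

open MeasureTheory ENNReal
open scoped Classical

noncomputable section

namespace SiegelPoisson

attribute [local instance 10000] ixOrder

theorem final_kap_one_le (s : ℤ) : 1 ≤ Zyg.kap s := by
  unfold Zyg.kap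
  have : 0 ≤ Real.logb 2 (1 + |(s : ℝ)|) := by
    apply Real.logb_nonneg (by norm_num)
    have := abs_nonneg (s : ℝ)
    linarith
  linarith

theorem final_prod_kap_one_le {C : Type} [Fintype C] (s : C → ℤ) : 1 ≤ ∏ c, Zyg.kap (s c) := by
  calc (1 : ℝ) = ∏ c : C, (1 : ℝ) := by simp
    _ ≤ _ := Finset.prod_le_prod (fun _ _ => zero_le_one) fun c _ => final_kap_one_le (s c)

theorem weak_k (m : ℕ) : ∃ Cw : ℝ, 0 < Cw ∧ ∀ (h : (Ix (m + 1) → ℝ) → ℝ), Measurable h →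
    (∀ x, 0 ≤ h x) → ∀ (s : Ix (m + 1) → ℤ) (k : ℕ),
    volume {x | 2 ^ k < Zyg.MM (aS (m + 1)) s (fun y => ENNReal.ofReal (h y)) x} ≤
      ENNReal.ofReal (∏ c, Zyg.kap (s c)) *
        (ENNReal.ofReal Cw * ∫⁻ x, ENNReal.ofReal (Zyg.phi m (h x))) / 2 ^ k := by
  obtain ⟨Cm, hCm, hd⟩ := Zyg.dyadic_weak (aS (m + 1)) (aS_sum (m + 1))
  refine ⟨Cm, hCm, fun h hm hp s k => ?_⟩
  have h2 : (2 : ℝ≥0∞) ^ k ≠ 0 := by positivity
  have h2t : (2 : ℝ≥0∞) ^ k ≠ ⊤ := ENNReal.pow_ne_top (by norm_num)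
  have key : volume {x | (2 : ℝ≥0∞) ^ k <
      Zyg.MM (aS (m + 1)) 0 (fun y => ENNReal.ofReal (h y)) x} ≤
      (ENNReal.ofReal Cm * ∫⁻ x, ENNReal.ofReal (Zyg.phi m (h x))) / 2 ^ k := by
    have h1 := hd (fun x => h x / 2 ^ k) (hm.div_const _) (fun x => div_nonneg (hp x) (by positivity))
    have e1 : (fun y => ENNReal.ofReal (h y / 2 ^ k)) =
        fun y => ((2 : ℝ≥0∞) ^ k)⁻¹ * ENNReal.ofReal (h y) := by
      funext y
      rw [ENNReal.ofReal_div_of_pos (by positivity), ENNReal.ofReal_pow (by norm_num)]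
      rw [ENNReal.ofReal_ofNat, div_eq_mul_inv, mul_comm]
    have e2 : {x | (1 : ℝ≥0∞) < Zyg.MM (aS (m + 1)) 0 (fun y => ENNReal.ofReal (h y / 2 ^ k)) x} =
        {x | (2 : ℝ≥0∞) ^ k < Zyg.MM (aS (m + 1)) 0 (fun y => ENNReal.ofReal (h y)) x} := by
      ext x
      rw [Set.mem_ofPred_eq, Set.mem_ofPred_eq, e1, Zyg.MM_const_mul _ _ (hm.ennreal_ofReal)]
      rw [mul_comm, ← div_eq_mul_inv, ENNReal.lt_div_iff_mul_lt (Or.inl h2) (Or.inl h2t), one_mul]
    rw [e2] at h1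
    refine h1.trans ?_
    rw [mul_div_assoc]
    gcongr
    calc ∫⁻ x, ENNReal.ofReal (Zyg.phi m (h x / 2 ^ k))
        ≤ ∫⁻ x, ENNReal.ofReal (Zyg.phi m (h x)) / 2 ^ k := by
          apply lintegral_mono
          intro x
          have := Zyg.phi_div_le m (hp x) (one_le_pow₀ (by norm_num : (1:ℝ) ≤ 2) (n := k))
          calc ENNReal.ofReal (Zyg.phi m (h x / 2 ^ k)) ≤ ENNReal.ofReal (Zyg.phi m (h x) / 2 ^ k) :=
                ENNReal.ofReal_le_ofReal this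
            _ = ENNReal.ofReal (Zyg.phi m (h x)) / 2 ^ k := by
              rw [ENNReal.ofReal_div_of_pos (by positivity), ENNReal.ofReal_pow (by norm_num),
                ENNReal.ofReal_ofNat]
      _ = (∫⁻ x, ENNReal.ofReal (Zyg.phi m (h x))) / 2 ^ k := by
          simp_rw [div_eq_mul_inv]
          rw [lintegral_mul_const']
          exact ENNReal.inv_ne_top.mpr h2
  calc volume {x | (2 : ℝ≥0∞) ^ k < Zyg.MM (aS (m + 1)) s (fun y => ENNReal.ofReal (h y)) x}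
      ≤ ENNReal.ofReal (∏ c, Zyg.kap (s c)) * volume {x | (2 : ℝ≥0∞) ^ k <
      Zyg.MM (aS (m + 1)) 0 (fun y => ENNReal.ofReal (h y)) x} := Zyg.MM_shift _ _ _ _
    _ ≤ ENNReal.ofReal (∏ c, Zyg.kap (s c)) *
        ((ENNReal.ofReal Cm * ∫⁻ x, ENNReal.ofReal (Zyg.phi m (h x))) / 2 ^ k) := by gcongr
    _ = _ := by rw [← mul_div_assoc]

/-- pointwise bound of the Poisson integral by the convolution of the absolute values -/
theorem u_le (m : ℕ) (f : (Ix m → ℝ) → ℝ) (g : (Ix m → ℝ) → ℝ)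
    (hfg : f =ᵐ[volume] g) (x : Ix m → ℝ) {d : Fin m → ℝ} (hd : ∀ i, 0 < d i) :
    ENNReal.ofReal |u f x (Matrix.diagonal d)| ≤ ENNReal.ofReal |cm m| *
      ∫⁻ t, ENNReal.ofReal |g (x - t)| * ENNReal.ofReal (kern (Matrix.diagonal d) t) := by
  unfold u
  have h1 : ENNReal.ofReal |∫ t, f (x - t) * poisson (Matrix.diagonal d) t| ≤
      ∫⁻ t, ENNReal.ofReal |f (x - t) * poisson (Matrix.diagonal d) t| := by
    have := enorm_integral_le_lintegral_enorm (μ := (volume : Measure (Ix m → ℝ)))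
      (fun t => f (x - t) * poisson (Matrix.diagonal d) t)
    simpa only [Real.enorm_eq_ofReal_abs] using this
  refine h1.trans (le_of_eq ?_)
  have hae : ∀ᵐ t : Ix m → ℝ, f (x - t) = g (x - t) := by
    have hq : MeasureTheory.Measure.QuasiMeasurePreserving (fun t : Ix m → ℝ => x - t) volume volume :=
      (MeasureTheory.Measure.measurePreserving_sub_left volume x).quasiMeasurePreserving
    exact hq.ae hfg
  rw [← lintegral_const_mul' _ _ ENNReal.ofReal_ne_top]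
  apply lintegral_congr_ae
  filter_upwards [hae] with t ht
  rw [ht, poisson, abs_mul, abs_mul, abs_of_nonneg (kern_nonneg t hd),
    ENNReal.ofReal_mul (abs_nonneg _), ENNReal.ofReal_mul (abs_nonneg _)]
  ring

/-- FULL Q1 -/
theorem main (m : ℕ) (hm : 1 ≤ m) (f : (Ix m → ℝ) → ℝ) (hf : AEStronglyMeasurable f volume)
    (hb : Bornology.IsBounded (Function.support f))
    (hL : ∫⁻ x, ENNReal.ofReal (|f x| * max (Real.log |f x|) 0 ^ (m - 1)) < ⊤) :
    ∀ᵐ x, MU f x < ⊤ := by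
  obtain ⟨m, rfl⟩ : ∃ m', m = m' + 1 := ⟨m - 1, by omega⟩
  simp only [Nat.add_sub_cancel] at hL
  obtain ⟨θ, h0, h1, hs⟩ := summable_lattice (m + 1) hm
  obtain ⟨Cw, hCw, hw⟩ := weak_k m
  obtain ⟨Cu, hCu, hu⟩ := conv_le (m + 1)
  have hphi := phi_fin (m + 1) m f hb hf hL
  set g : (Ix (m + 1) → ℝ) → ℝ := hf.mk f with hg
  have hgm : Measurable g := hf.stronglyMeasurable_mk.measurable
  have hfg : f =ᵐ[volume] g := hf.ae_eq_mk
  have hphi' : ∫⁻ x, ENNReal.ofReal (Zyg.phi m |g x|) < ⊤ := by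
    rwa [← lintegral_congr_ae (g := fun x => ENNReal.ofReal (Zyg.phi m |g x|))
      (f := fun x => ENNReal.ofReal (Zyg.phi m |f x|))]
    filter_upwards [hfg] with x hx
    rw [hx]
  have habs : Measurable fun x => |g x| := hgm.abs
  have fin := Zyg.ae_tsum_lt_top (μ := (volume : Measure (Ix (m + 1) → ℝ))) h0 h1
    (fun s : Ix (m + 1) → ℤ =>
      ENNReal.ofReal (absDet (fun c => (s c : ℝ)) 1 ^ (-(((m + 1 : ℕ) : ℝ) + 1))))
    (fun s => ENNReal.ofReal (∏ c, Zyg.kap ((-s) c)))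
    (ENNReal.ofReal Cw * ∫⁻ x, ENNReal.ofReal (Zyg.phi m |g x|))
    (ENNReal.mul_ne_top ENNReal.ofReal_ne_top hphi'.ne)
    (fun s => by
      rw [← ENNReal.ofReal_one]
      exact ENNReal.ofReal_le_ofReal (final_prod_kap_one_le (-s)))
    (by
      have e : (fun s : Ix (m + 1) → ℤ =>
          ENNReal.ofReal (absDet (fun c => (s c : ℝ)) 1 ^ (-(((m + 1 : ℕ) : ℝ) + 1))) ^ θ *
            ENNReal.ofReal (∏ c, Zyg.kap ((-s) c))) =
          fun s => ENNReal.ofReal (absDet (fun c => (s c : ℝ)) 1 ^ (-((((m + 1 : ℕ) : ℝ) + 1) * θ)) *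
            ∏ c, (4 + Real.logb 2 (1 + |(s c : ℝ)|))) := by
        funext s
        have hpos : 0 ≤ absDet (fun c => (s c : ℝ)) 1 := zero_le_one.trans (one_le_absDet _)
        rw [ENNReal.ofReal_rpow_of_nonneg (Real.rpow_nonneg hpos _) h0.le, ← Real.rpow_mul hpos,
          ← ENNReal.ofReal_mul (Real.rpow_nonneg hpos _), neg_mul]
        simp [Zyg.kap]
      rw [e]
      exact hs.tsum_ofReal_ne_top)
    (fun s => Zyg.MM (aS (m + 1)) (-s) (fun y => ENNReal.ofReal |g y|))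
    (fun s => Zyg.measurable_MM _ _ _)
    (fun s k => hw (fun x => |g x|) habs (fun x => abs_nonneg _) (-s) k)
  filter_upwards [fin] with x hx
  unfold MU
  have hbound : ∀ d : Fin (m + 1) → ℝ, (∀ i, 0 < d i) →
      ENNReal.ofReal |u f x (Matrix.diagonal d)| ≤ ENNReal.ofReal |cm (m + 1)| *
        (ENNReal.ofReal Cu * ∑' s : Ix (m + 1) → ℤ,
          ENNReal.ofReal (absDet (fun c => (s c : ℝ)) 1 ^ (-(((m + 1 : ℕ) : ℝ) + 1))) *
          Zyg.MM (aS (m + 1)) (-s) (fun y => ENNReal.ofReal |g y|) x) := by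
    intro d hd
    refine (u_le (m + 1) f g hfg x hd).trans ?_
    gcongr
    exact hu (fun y => ENNReal.ofReal |g y|) habs.ennreal_ofReal d hd x
  refine lt_of_le_of_lt (iSup₂_le hbound) ?_
  exact ENNReal.mul_lt_top ENNReal.ofReal_lt_top (ENNReal.mul_lt_top ENNReal.ofReal_lt_top hx)

end SiegelPoisson
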