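import Pool.Agent.Work.MP_93d592_an.Stmt
import Pool.Agent.Work.MP_93d592_an.Ker

/-!
# KerS : properties of the kernel (module B9, helper34)
-/

open MeasureTheory ENNReal
open scoped Classical

noncomputable section

namespace SiegelPoisson

theorem sym_eq {m : ℕ} (x : Ix m → ℝ) : sym x = Zyg.sym x := rfl

theorem absDet_diag {m : ℕ} (x : Ix m → ℝ) (d : Fin m → ℝ) :
    absDet x (Matrix.diagonal d) = ‖(Zyg.cmat (Zyg.sym x) d).det‖ := by
  have h1 : (Matrix.diagonal d).map Complex.ofReal = Matrix.diagonal (fun k => (d k : ℂ)) := by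
    rw [Matrix.diagonal_map Complex.ofReal_zero]
  rw [absDet, Zyg.cmat, h1]
  rfl

theorem absDet_one {m : ℕ} (x : Ix m → ℝ) : absDet x 1 = Zyg.Dn x := by
  rw [← Matrix.diagonal_one, absDet_diag]
  rfl

/-- `1 ≤ |det (x+i)|` -/
theorem one_le_absDet {m : ℕ} (x : Ix m → ℝ) : 1 ≤ absDet x 1 := by
  rw [absDet_one]
  exact Zyg.one_le_Dn x

theorem continuous_absDet {m : ℕ} (y : Matrix (Fin m) (Fin m) ℝ) :
    Continuous fun x : Ix m → ℝ => absDet x y := by
  unfold absDet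
  refine continuous_norm.comp (Continuous.matrix_det ?_)
  refine Continuous.add ?_ continuous_const
  refine continuous_matrix fun i j => ?_
  exact Complex.continuous_ofReal.comp (continuous_apply _)

theorem absDet_pos {m : ℕ} (x : Ix m → ℝ) {d : Fin m → ℝ} (hd : ∀ i, 0 < d i) :
    0 < absDet x (Matrix.diagonal d) := by
  rw [absDet_diag]
  exact norm_pos_iff.2 (Zyg.det_cmat_ne _ (Zyg.sym_symm _) _ hd)

theorem kern_eq_pk {m : ℕ} (x : Ix m → ℝ) (d : Fin m → ℝ) :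
    kern (Matrix.diagonal d) x = Zyg.pk x d ^ (((m : ℝ) + 1) / 2) := by
  rw [kern, Matrix.det_diagonal, absDet_diag]
  rfl

theorem kern_nonneg {m : ℕ} (x : Ix m → ℝ) {d : Fin m → ℝ} (hd : ∀ i, 0 < d i) :
    0 ≤ kern (Matrix.diagonal d) x := by
  rw [kern, Matrix.det_diagonal]
  refine Real.rpow_nonneg (div_nonneg (Finset.prod_nonneg fun i _ => (hd i).le) (sq_nonneg _)) _

theorem measurable_kern {m : ℕ} {d : Fin m → ℝ} (_hd : ∀ i, 0 < d i) :
    Measurable (kern (m := m) (Matrix.diagonal d)) := by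
  unfold kern
  refine Measurable.pow_const ?_ _
  exact measurable_const.div ((continuous_absDet _).measurable.pow_const 2)

/-- (K2) -/
theorem absDet_shift (m : ℕ) : ∃ Cm : ℝ, 0 < Cm ∧ ∀ x h : Ix m → ℝ, (∀ c, |h c| ≤ 1) →
    absDet (x + h) 1 ≤ Cm * absDet x 1 := by
  refine ⟨(m.factorial : ℝ) * (1 + m) ^ m, by positivity, fun x h hh => ?_⟩
  rw [absDet_one, absDet_one]
  exact Zyg.Dn_add_le x h hh

theorem sum_Ix (m : ℕ) (k : Fin m → ℤ) :
    ∑ c : Ix m, (k c.1.1 + k c.1.2) = ((m : ℤ) + 1) * ∑ i, k i := by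
  have h1 : ∑ c : Ix m, (k c.1.1 + k c.1.2)
      = ∑ p : Fin m × Fin m, if p.1 ≤ p.2 then (k p.1 + k p.2) else 0 := by
    rw [← Finset.sum_filter, ← Finset.sum_subtype_eq_sum_filter]
    simp
  rw [h1, Fintype.sum_prod_type]
  have h2 : ∀ i j : Fin m, (if i ≤ j then (k i + k j) else 0)
      = (if i ≤ j then k i else 0) + (if i ≤ j then k j else 0) := by
    intro i j; split_ifs <;> simp
  simp only [h2, Finset.sum_add_distrib]
  have h3 : ∑ i : Fin m, ∑ j : Fin m, (if i ≤ j then k j else 0)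
      = ∑ i : Fin m, ∑ j : Fin m, (if j ≤ i then k i else 0) := Finset.sum_comm
  rw [h3, ← Finset.sum_add_distrib, Finset.mul_sum]
  refine Finset.sum_congr rfl fun i _ => ?_
  rw [← Finset.sum_add_distrib]
  have h4 : ∀ j : Fin m, ((if i ≤ j then k i else 0) + (if j ≤ i then k i else 0))
      = k i + (if i = j then k i else 0) := by
    intro j
    rcases lt_trichotomy i j with h | h | h
    · rw [if_pos h.le, if_neg (not_le.2 h), if_neg h.ne]
    · subst h; simp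
    · rw [if_neg (not_le.2 h), if_pos h.le, if_neg h.ne']; ring
  simp only [h4, Finset.sum_add_distrib, Finset.sum_const, Finset.card_univ, Fintype.card_fin,
    Finset.sum_ite_eq, Finset.mem_univ, if_true, nsmul_eq_mul]
  ring

/-- (K3) -/
theorem kern_le (m : ℕ) : ∃ Cm : ℝ, 0 < Cm ∧ ∀ (d : Fin m → ℝ) (k : Fin m → ℤ),
    (∀ i, (4 : ℝ) ^ (k i) ≤ d i) → (∀ i, d i ≤ 4 * (4 : ℝ) ^ (k i)) → ∀ x : Ix m → ℝ,
    kern (Matrix.diagonal d) x ≤ Cm * (∏ c : Ix m, (2 : ℝ) ^ (-(k c.1.1 + k c.1.2))) *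
      absDet (fun c : Ix m => (2 : ℝ) ^ (-(k c.1.1 + k c.1.2)) * x c) 1 ^ (-((m : ℝ) + 1)) := by
  set C0 : ℝ := 4 ^ m * ((m.factorial : ℝ) * (1 + m * 3) ^ m) ^ 2 with hC0
  have hC00 : 0 < C0 := by positivity
  refine ⟨C0 ^ (((m : ℝ) + 1) / 2), by positivity, fun d k h1 h2 x => ?_⟩
  have hg : ∀ i, (0 : ℝ) < (2 : ℝ) ^ (k i) := fun i => by positivity
  have h4 : ∀ i, (4 : ℝ) ^ (k i) = ((2 : ℝ) ^ (k i)) ^ 2 := by
    intro i
    rw [← zpow_natCast, ← zpow_mul, mul_comm, zpow_mul]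
    norm_num
  set g : Fin m → ℝ := fun i => (2 : ℝ) ^ (k i) with hgdef
  set e : Fin m → ℝ := fun i => d i / g i ^ 2 with he
  have hd : d = fun i => g i ^ 2 * e i := by
    funext i
    have := (hg i).ne'
    simp only [he, hgdef]
    field_simp
  have he1 : ∀ i, 1 ≤ e i ∧ e i ≤ 4 := by
    intro i
    have h5 := h1 i
    have h6 := h2 i
    rw [h4] at h5 h6
    have h7 : 0 < g i ^ 2 := by have := hg i; positivity
    simp only [he]
    rw [le_div_iff₀ h7, div_le_iff₀ h7, one_mul]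
    exact ⟨h5, h6⟩
  have h8 := Zyg.pk_le x g e hg he1
  rw [← hd] at h8
  have hP : 0 < ∏ i, g i := Finset.prod_pos fun i _ => hg i
  have hscl : Zyg.scl g x = fun c : Ix m => (2 : ℝ) ^ (-(k c.1.1 + k c.1.2)) * x c := by
    funext c
    simp only [Zyg.scl, hgdef]
    rw [← zpow_add₀ (two_ne_zero), zpow_neg, div_eq_mul_inv, mul_comm]
  have hDn : 0 < Zyg.Dn (Zyg.scl g x) := lt_of_lt_of_le one_pos (Zyg.one_le_Dn _)
  rw [kern_eq_pk, absDet_one, ← hscl]
  have hpk0 : 0 ≤ Zyg.pk x d := by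
    rw [Zyg.pk]
    refine div_nonneg (Finset.prod_nonneg fun i _ => ?_) (sq_nonneg _)
    exact le_trans (by positivity) (h1 i)
  have h9 : ∏ c : Ix m, (2 : ℝ) ^ (-(k c.1.1 + k c.1.2)) = (∏ i, g i) ^ (-((m : ℝ) + 1)) := by
    have h10 : ∏ c : Ix m, (2 : ℝ) ^ (-(k c.1.1 + k c.1.2))
        = (2 : ℝ) ^ (∑ c : Ix m, (-(k c.1.1 + k c.1.2))) := by
      have : ∀ S : Finset (Ix m), ∏ c ∈ S, (2 : ℝ) ^ (-(k c.1.1 + k c.1.2))
          = (2 : ℝ) ^ (∑ c ∈ S, (-(k c.1.1 + k c.1.2))) := by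
        intro S
        induction S using Finset.induction_on with
        | empty => simp
        | insert a S ha ih =>
          rw [Finset.prod_insert ha, Finset.sum_insert ha, ih, zpow_add₀ (two_ne_zero)]
      exact this Finset.univ
    have h11 : ∏ i, g i = (2 : ℝ) ^ (∑ i, k i) := by
      have : ∀ S : Finset (Fin m), ∏ c ∈ S, g c = (2 : ℝ) ^ (∑ c ∈ S, k c) := by
        intro S
        induction S using Finset.induction_on with
        | empty => simp
        | insert a S ha ih =>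
          rw [Finset.prod_insert ha, Finset.sum_insert ha, ih, zpow_add₀ (two_ne_zero)]
      exact this Finset.univ
    rw [h10, h11, Finset.sum_neg_distrib, sum_Ix, ← Real.rpow_intCast, ← Real.rpow_intCast,
      ← Real.rpow_mul (by norm_num)]
    congr 1
    push_cast
    ring
  rw [h9]
  have hm1 : (0 : ℝ) ≤ ((m : ℝ) + 1) / 2 := by positivity
  calc Zyg.pk x d ^ (((m : ℝ) + 1) / 2)
      ≤ (C0 * (1 / ((∏ i, g i) ^ 2 * Zyg.Dn (Zyg.scl g x) ^ 2))) ^ (((m : ℝ) + 1) / 2) :=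
        Real.rpow_le_rpow hpk0 h8 hm1
    _ = C0 ^ (((m : ℝ) + 1) / 2) * (∏ i, g i) ^ (-((m : ℝ) + 1))
          * Zyg.Dn (Zyg.scl g x) ^ (-((m : ℝ) + 1)) := by
        rw [Real.mul_rpow hC00.le (by positivity), one_div, ← mul_pow,
          Real.inv_rpow (by positivity)]
        have h12 : (((∏ i, g i) * Zyg.Dn (Zyg.scl g x)) ^ 2) ^ (((m : ℝ) + 1) / 2)
            = ((∏ i, g i) * Zyg.Dn (Zyg.scl g x)) ^ ((m : ℝ) + 1) := by
          rw [← Real.rpow_natCast, ← Real.rpow_mul (by positivity)]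
          congr 1
          push_cast
          ring
        rw [h12, ← Real.rpow_neg (by positivity), Real.mul_rpow hP.le hDn.le]
        ring

/-- (K1) -/
theorem lintegral_absDet (m : ℕ) {p : ℝ} (hp : (m : ℝ) < p) :
    ∫⁻ x : Ix m → ℝ, ENNReal.ofReal (absDet x 1 ^ (-p)) < ⊤ := by
  simp only [absDet_one]
  exact Zyg.lint_Dn m p hp

/-- (K4) -/
theorem summable_lattice (m : ℕ) (_hm : 1 ≤ m) : ∃ θ : ℝ, 0 < θ ∧ θ < 1 ∧
    Summable fun s : Ix m → ℤ => absDet (fun c => (s c : ℝ)) 1 ^ (-(((m : ℝ) + 1) * θ)) *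
      ∏ c, (4 + Real.logb 2 (1 + |(s c : ℝ)|)) := by
  simp only [absDet_one]
  exact Zyg.sum_log m

end SiegelPoisson
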