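import Pool.Agent.Work.MP_93d592_an.B.KerS

/-!
# KerS_sum : summability over the lattice (K4)

`|det (x+i)|^2 = det (1+x^2) ≥ 1 + x_c^2`, so the logarithms are absorbed by a small power; the
lattice sum is compared with the integral (`absDet_shift`, unit cubes).
-/

open MeasureTheory ENNReal
open scoped Classical

noncomputable section

namespace SiegelPoisson

theorem KS_sym_symm {m : ℕ} (x : Ix m → ℝ) : (sym x).transpose = sym x := by
  ext i j
  simp only [sym, Matrix.transpose_apply, Matrix.of_apply]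
  congr 1
  simp only [min_comm, max_comm]

/-- `|det (x+i)|^2 = det (1 + x^2)` -/
theorem KS_sq {m : ℕ} (x : Ix m → ℝ) :
    absDet x 1 ^ 2 = (1 + sym x * sym x).det := by
  apply Complex.ofReal_injective
  unfold absDet
  set A : Matrix (Fin m) (Fin m) ℂ := (sym x).map Complex.ofReal with hA
  have h1 : (1 : Matrix (Fin m) (Fin m) ℝ).map Complex.ofReal = 1 := by
    ext i j
    by_cases h : i = j
    · subst h; simp
    · simp [h]
  rw [h1]
  set B : Matrix (Fin m) (Fin m) ℂ := A + Complex.I • 1 with hB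
  have h2 : (starRingEnd ℂ) B.det = (A - Complex.I • 1).det := by
    rw [RingHom.map_det]
    congr 1
    ext i j
    by_cases h : i = j
    · subst h; simp [hB, hA]; ring
    · simp [hB, hA, h]
  have h3 : ((‖B.det‖ ^ 2 : ℝ) : ℂ) = B.det * (starRingEnd ℂ) B.det := by
    rw [Complex.mul_conj, Complex.normSq_eq_norm_sq]
  rw [h3, h2, ← Matrix.det_mul]
  have h4 : B * (A - Complex.I • 1) = 1 + A * A := by
    rw [hB, add_mul, mul_sub, mul_sub]
    simp only [Matrix.mul_smul, Matrix.smul_mul, Matrix.mul_one, Matrix.one_mul, smul_smul,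
      Complex.I_mul_I, neg_smul, one_smul]
    abel
  rw [h4]
  have h5 : (1 + A * A) = (1 + sym x * sym x).map Complex.ofRealHom := by
    rw [hA]
    ext i j
    by_cases h : i = j
    · subst h; simp [Matrix.mul_apply]
    · simp [Matrix.mul_apply, h]
  rw [h5]
  exact (RingHom.map_det Complex.ofRealHom _).symm

theorem KS_prod {ι : Type} (s : Finset ι) (a : ι → ℝ) (ha : ∀ i ∈ s, 0 ≤ a i) :
    1 + ∑ i ∈ s, a i ≤ ∏ i ∈ s, (1 + a i) := by
  classical
  induction s using Finset.induction_on with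
  | empty => simp
  | insert i s hi ih =>
    rw [Finset.sum_insert hi, Finset.prod_insert hi]
    have h1 := ih fun j hj => ha j (Finset.mem_insert_of_mem hj)
    have h2 := ha i (Finset.mem_insert_self i s)
    have h3 : 0 ≤ ∑ j ∈ s, a j :=
      Finset.sum_nonneg fun j hj => ha j (Finset.mem_insert_of_mem hj)
    nlinarith [mul_nonneg h2 h3]

theorem KS_lower {m : ℕ} (x : Ix m → ℝ) (c : Ix m) : 1 + x c ^ 2 ≤ absDet x 1 ^ 2 := by
  rw [KS_sq]
  set S := sym x with hS
  have hsy : S.transpose = S := KS_sym_symm x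
  have hP : (1 + S * S).IsHermitian := by
    rw [Matrix.IsHermitian, Matrix.conjTranspose_eq_transpose_of_trivial, Matrix.transpose_add,
      Matrix.transpose_mul, Matrix.transpose_one, hsy]
  have hev : ∀ j, 1 ≤ hP.eigenvalues j := by
    intro j
    rw [hP.eigenvalues_eq j]
    set v : Fin m → ℝ := (hP.eigenvectorBasis j).ofLp with hv
    have h1 : v ⬝ᵥ v = 1 := by
      have h2 : ‖hP.eigenvectorBasis j‖ = 1 := hP.eigenvectorBasis.orthonormal.1 j
      have h3 : ‖hP.eigenvectorBasis j‖ ^ 2 = ∑ i, (hP.eigenvectorBasis j).ofLp i ^ 2 := by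
        rw [EuclideanSpace.norm_sq_eq]
        simp
      rw [h2] at h3
      simp only [dotProduct, hv]
      have h4 : ∑ i, (hP.eigenvectorBasis j).ofLp i ^ 2 = 1 := by rw [← h3]; norm_num
      refine Eq.trans (Finset.sum_congr rfl fun i _ => ?_) h4
      ring
    have h2 : v ⬝ᵥ (1 + S * S).mulVec v = 1 + (S.mulVec v) ⬝ᵥ (S.mulVec v) := by
      rw [Matrix.add_mulVec, dotProduct_add, Matrix.one_mulVec, h1, ← Matrix.mulVec_mulVec,
        Matrix.dotProduct_mulVec, ← Matrix.mulVec_transpose, hsy]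
    have h3 : 0 ≤ (S.mulVec v) ⬝ᵥ (S.mulVec v) := by
      simp only [dotProduct]
      exact Finset.sum_nonneg fun i _ => mul_self_nonneg _
    simp only [star_trivial, RCLike.re_to_real]
    rw [h2]
    linarith
  rw [hP.det_eq_prod_eigenvalues]
  have htr := hP.trace_eq_sum_eigenvalues
  have h1 := KS_prod Finset.univ (fun j => hP.eigenvalues j - 1) fun j _ => by linarith [hev j]
  have h2 : ∏ j, (1 + (hP.eigenvalues j - 1)) = ∏ j, (((hP.eigenvalues j : ℝ)) : ℝ) :=
    Finset.prod_congr rfl fun j _ => by ring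
  rw [h2] at h1
  have h3 : ∑ j, (hP.eigenvalues j - 1) = (1 + S * S).trace - m := by
    rw [htr, Finset.sum_sub_distrib]
    simp
  have h4 : (1 + S * S).trace = m + ∑ i, ∑ k, S i k ^ 2 := by
    rw [Matrix.trace_add, Matrix.trace_one]
    simp only [Fintype.card_fin, Matrix.trace, Matrix.diag_apply, Matrix.mul_apply]
    congr 1
    refine Finset.sum_congr rfl fun i _ => Finset.sum_congr rfl fun k _ => ?_
    have : S k i = S i k := by
      conv_lhs => rw [← hsy]
      rfl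
    rw [this]; ring
  have h5 : x c ^ 2 ≤ ∑ i, ∑ k, S i k ^ 2 := by
    have h6 : S c.1.1 c.1.2 = x c := by
      simp only [hS, sym, Matrix.of_apply]
      congr 1
      apply Subtype.ext
      simp [c.2]
    calc x c ^ 2 = S c.1.1 c.1.2 ^ 2 := by rw [h6]
      _ ≤ ∑ k, S c.1.1 k ^ 2 :=
          Finset.single_le_sum (f := fun k => S c.1.1 k ^ 2) (fun k _ => sq_nonneg _)
            (Finset.mem_univ _)
      _ ≤ ∑ i, ∑ k, S i k ^ 2 :=
          Finset.single_le_sum (f := fun i => ∑ k, S i k ^ 2)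
            (fun i _ => Finset.sum_nonneg fun k _ => sq_nonneg _) (Finset.mem_univ _)
  have h7 : (∏ j, (((hP.eigenvalues j : ℝ)) : ℝ)) = ∏ i, ((RCLike.ofReal (hP.eigenvalues i) : ℝ)) := by
    refine Finset.prod_congr rfl fun j _ => ?_
    simp
  rw [← h7]
  linarith

theorem KS_log {ε : ℝ} (hε : 0 < ε) {y : ℝ} (hy : 1 ≤ y) :
    4 + Real.logb 2 y ≤ (4 + 1 / (ε * Real.log 2)) * y ^ ε := by
  have h2 : 0 < Real.log 2 := Real.log_pos (by norm_num)
  have h1 : Real.log y ≤ y ^ ε / ε := Real.log_le_rpow_div (by linarith) hε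
  have h3 : 1 ≤ y ^ ε := Real.one_le_rpow hy hε.le
  have h4 : Real.logb 2 y ≤ 1 / (ε * Real.log 2) * y ^ ε := by
    rw [Real.logb, div_le_iff₀ h2]
    calc Real.log y ≤ y ^ ε / ε := h1
      _ = 1 / (ε * Real.log 2) * y ^ ε * Real.log 2 := by field_simp
  nlinarith

theorem KS_two {m : ℕ} (x : Ix m → ℝ) (c : Ix m) : 1 + |x c| ≤ 2 * absDet x 1 := by
  have h1 := KS_lower x c
  have h2 := one_le_absDet x
  have h3 : |x c| ^ 2 = x c ^ 2 := sq_abs _
  by_contra h
  push Not at h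
  nlinarith [sq_nonneg (1 - |x c|), abs_nonneg (x c)]

/-- unit cubes -/
def KSQ (m : ℕ) (s : Ix m → ℤ) : Set (Ix m → ℝ) :=
  Set.pi Set.univ fun c => Set.Ico (s c : ℝ) ((s c : ℝ) + 1)

theorem KSQ_volume (m : ℕ) (s : Ix m → ℤ) : volume (KSQ m s) = 1 := by
  unfold KSQ
  rw [Real.volume_pi_Ico]
  simp

theorem KSQ_meas (m : ℕ) (s : Ix m → ℤ) : MeasurableSet (KSQ m s) :=
  MeasurableSet.univ_pi fun _ => measurableSet_Ico

theorem KSQ_disj (m : ℕ) : Pairwise (Function.onFun Disjoint (KSQ m)) := by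
  intro s t hst
  rw [Function.onFun, Set.disjoint_left]
  intro x hx hx'
  apply hst
  funext c
  have h1 := hx c (Set.mem_univ c)
  have h2 := hx' c (Set.mem_univ c)
  rw [Set.mem_Ico] at h1 h2
  have h3 : ⌊x c⌋ = s c := Int.floor_eq_iff.mpr ⟨h1.1, h1.2⟩
  have h4 : ⌊x c⌋ = t c := Int.floor_eq_iff.mpr ⟨h2.1, h2.2⟩
  rw [← h3, h4]

theorem KS_tsum (m : ℕ) {p : ℝ} (hp : (m : ℝ) < p) :
    ∑' s : Ix m → ℤ, ENNReal.ofReal (absDet (fun c => (s c : ℝ)) 1 ^ (-p)) ≠ ⊤ := by
  obtain ⟨Cm, hCm, hsh⟩ := absDet_shift m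
  have hp0 : 0 < p := lt_of_le_of_lt (Nat.cast_nonneg m) hp
  have key : ∀ s : Ix m → ℤ, ENNReal.ofReal (absDet (fun c => (s c : ℝ)) 1 ^ (-p)) ≤
      ∫⁻ x in KSQ m s, ENNReal.ofReal (Cm ^ p) * ENNReal.ofReal (absDet x 1 ^ (-p)) := by
    intro s
    calc ENNReal.ofReal (absDet (fun c => (s c : ℝ)) 1 ^ (-p))
        = ∫⁻ _ in KSQ m s, ENNReal.ofReal (absDet (fun c => (s c : ℝ)) 1 ^ (-p)) := by
          rw [setLIntegral_const, KSQ_volume, mul_one]
      _ ≤ _ := by
          refine setLIntegral_mono' (KSQ_meas m s) fun x hx => ?_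
          rw [← ENNReal.ofReal_mul (by positivity)]
          refine ENNReal.ofReal_le_ofReal ?_
          have h1 : absDet x 1 ≤ Cm * absDet (fun c => (s c : ℝ)) 1 := by
            have h2 := hsh (fun c => (s c : ℝ)) (fun c => x c - s c) (by
              intro c
              have h3 := hx c (Set.mem_univ c)
              rw [Set.mem_Ico] at h3
              rw [abs_le]
              constructor <;> linarith [h3.1, h3.2])
            have h4 : (fun c => (s c : ℝ)) + (fun c => x c - s c) = x := by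
              funext c
              simp
            rw [h4] at h2
            exact h2
          have ha : 1 ≤ absDet x 1 := one_le_absDet x
          have hb : 1 ≤ absDet (fun c => (s c : ℝ)) 1 := one_le_absDet _
          have h5 : absDet (fun c => (s c : ℝ)) 1 ^ (-p) ≤ (absDet x 1 / Cm) ^ (-p) := by
            refine Real.rpow_le_rpow_of_nonpos (by positivity) ?_ (by linarith)
            rw [div_le_iff₀ hCm]
            linarith [mul_comm Cm (absDet (fun c => (s c : ℝ)) 1)]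
          refine h5.trans (le_of_eq ?_)
          rw [Real.div_rpow (by linarith) hCm.le, Real.rpow_neg hCm.le, div_inv_eq_mul, mul_comm]
  have h1 : ∑' s : Ix m → ℤ, ENNReal.ofReal (absDet (fun c => (s c : ℝ)) 1 ^ (-p)) ≤
      ∫⁻ x : Ix m → ℝ, ENNReal.ofReal (Cm ^ p) * ENNReal.ofReal (absDet x 1 ^ (-p)) := by
    refine (ENNReal.tsum_le_tsum key).trans ?_
    rw [← lintegral_iUnion (fun s => KSQ_meas m s) (KSQ_disj m)]
    exact setLIntegral_le_lintegral _ _
  have h2 : ∫⁻ x : Ix m → ℝ, ENNReal.ofReal (Cm ^ p) * ENNReal.ofReal (absDet x 1 ^ (-p)) < ⊤ := by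
    rw [lintegral_const_mul' _ _ ENNReal.ofReal_ne_top]
    exact ENNReal.mul_lt_top ENNReal.ofReal_lt_top (lintegral_absDet m hp)
  exact (lt_of_le_of_lt h1 h2).ne

/-- (K4) -/
theorem KS_summable_lattice (m : ℕ) (hm : 1 ≤ m) : ∃ θ : ℝ, 0 < θ ∧ θ < 1 ∧
    Summable fun s : Ix m → ℤ => absDet (fun c => (s c : ℝ)) 1 ^ (-(((m : ℝ) + 1) * θ)) *
      ∏ c, (4 + Real.logb 2 (1 + |(s c : ℝ)|)) := by
  have hm0 : (0 : ℝ) ≤ m := Nat.cast_nonneg m
  refine ⟨((m : ℝ) + 1 / 2) / ((m : ℝ) + 1), by positivity, ?_, ?_⟩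
  · rw [div_lt_one (by positivity)]
    linarith
  have e1 : ((m : ℝ) + 1) * (((m : ℝ) + 1 / 2) / ((m : ℝ) + 1)) = (m : ℝ) + 1 / 2 := by
    field_simp
  rw [e1]
  have hsum : Summable fun s : Ix m → ℤ =>
      absDet (fun c => (s c : ℝ)) 1 ^ (-((m : ℝ) + 1 / 4)) := by
    have h1 := ENNReal.summable_toReal (KS_tsum m (p := (m : ℝ) + 1 / 4) (by linarith))
    refine h1.congr fun s => ?_
    rw [ENNReal.toReal_ofReal]
    have := one_le_absDet (fun c => (s c : ℝ))
    positivity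
  set N : ℕ := Fintype.card (Ix m) with hN
  set ε : ℝ := 1 / (4 * ((N : ℝ) + 1)) with hε
  have hε0 : 0 < ε := by positivity
  set K : ℝ := 4 + 1 / (ε * Real.log 2) with hK
  have hlog2 : 0 < Real.log 2 := Real.log_pos (by norm_num)
  have hK0 : 0 < K := by positivity
  refine Summable.of_nonneg_of_le (fun s => ?_) (fun s => ?_) (hsum.mul_left (K ^ N * 2))
  · have h1 := one_le_absDet (fun c => (s c : ℝ))
    refine mul_nonneg (by positivity) (Finset.prod_nonneg fun c _ => ?_)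
    have h2 : 0 ≤ Real.logb 2 (1 + |(s c : ℝ)|) :=
      Real.logb_nonneg (by norm_num) (by linarith [abs_nonneg (s c : ℝ)])
    linarith
  · set a : ℝ := absDet (fun c => (s c : ℝ)) 1 with ha
    have ha1 : 1 ≤ a := one_le_absDet _
    have h1 : ∏ c, (4 + Real.logb 2 (1 + |(s c : ℝ)|)) ≤ ∏ _c : Ix m, (K * (2 * a) ^ ε) := by
      refine Finset.prod_le_prod (fun c _ => ?_) fun c _ => ?_
      · have h2 : 0 ≤ Real.logb 2 (1 + |(s c : ℝ)|) :=
          Real.logb_nonneg (by norm_num) (by linarith [abs_nonneg (s c : ℝ)])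
        linarith
      · refine (KS_log hε0 (y := 1 + |(s c : ℝ)|) (by linarith [abs_nonneg (s c : ℝ)])).trans ?_
        refine mul_le_mul_of_nonneg_left ?_ hK0.le
        exact Real.rpow_le_rpow (by positivity) (KS_two (fun c => (s c : ℝ)) c) hε0.le
    have h2 : ∏ _c : Ix m, (K * (2 * a) ^ ε) = K ^ N * ((2 * a) ^ ε) ^ N := by
      rw [Finset.prod_const, Finset.card_univ, mul_pow]
    have h3 : ((2 * a) ^ ε) ^ N ≤ 2 * a ^ (1 / 4 : ℝ) := by
      rw [← Real.rpow_natCast, ← Real.rpow_mul (by positivity)]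
      have h4 : ε * (N : ℝ) ≤ 1 / 4 := by
        rw [hε, div_mul_eq_mul_div, div_le_div_iff₀ (by positivity) (by norm_num)]
        nlinarith [(Nat.cast_nonneg N : (0 : ℝ) ≤ N)]
      calc (2 * a) ^ (ε * (N : ℝ)) ≤ (2 * a) ^ (1 / 4 : ℝ) :=
            Real.rpow_le_rpow_of_exponent_le (by linarith) h4
        _ = 2 ^ (1 / 4 : ℝ) * a ^ (1 / 4 : ℝ) := Real.mul_rpow (by norm_num) (by linarith)
        _ ≤ 2 * a ^ (1 / 4 : ℝ) := by
            refine mul_le_mul_of_nonneg_right ?_ (by positivity)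
            calc (2 : ℝ) ^ (1 / 4 : ℝ) ≤ 2 ^ (1 : ℝ) :=
                  Real.rpow_le_rpow_of_exponent_le (by norm_num) (by norm_num)
              _ = 2 := Real.rpow_one 2
    have h5 : a ^ (-((m : ℝ) + 1 / 2)) * a ^ (1 / 4 : ℝ) = a ^ (-((m : ℝ) + 1 / 4)) := by
      rw [← Real.rpow_add (by linarith)]
      congr 1
      ring
    calc a ^ (-((m : ℝ) + 1 / 2)) * ∏ c, (4 + Real.logb 2 (1 + |(s c : ℝ)|))
        ≤ a ^ (-((m : ℝ) + 1 / 2)) * (K ^ N * (2 * a ^ (1 / 4 : ℝ))) := by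
          refine mul_le_mul_of_nonneg_left ?_ (by positivity)
          refine h1.trans ?_
          rw [h2]
          exact mul_le_mul_of_nonneg_left h3 (by positivity)
      _ = K ^ N * 2 * (a ^ (-((m : ℝ) + 1 / 2)) * a ^ (1 / 4 : ℝ)) := by ring
      _ = K ^ N * 2 * a ^ (-((m : ℝ) + 1 / 4)) := by rw [h5]

end SiegelPoisson
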