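import Pool.Agent.Work.MP_93d592_an.B.KerS
import Pool.Agent.Work.MP_93d592_an.B.Box

/-!
# KerUse : the Poisson integral is bounded by shifted dyadic maximal functions (module B10)

`k i` with `4^(k i) ≤ d i < 4^(k i + 1)` (`exists_mem_Ico_zpow`), `w = -k`, `l = lv aS w`, so
`l c = -(k c.1.1 + k c.1.2)`.  `kern_le`: `kern (diagonal d) t ≤ C dens(l) absDet(2^l t)^(-(m+1))`.
`∫⁻ h(x-t) kern t dt = ∫⁻ h(y) kern(x-y) dy` (`lintegral_sub_left_eq_self`) `= ∑' j, ∫⁻ y in bx l j, ..` (the boxes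
`bx l j`, `j : Ix m → ℤ`, partition the space: `lintegral_iUnion`), `j = idx l x - s`; for `y ∈ bx l j`, `c`:
`|2^l (x_c - y_c) - s_c| ≤ 1`, so `absDet (s) ≤ Cm absDet (2^l (x-y))` (`absDet_shift`).
-/

open MeasureTheory ENNReal
open scoped Classical

noncomputable section

namespace SiegelPoisson

/-- an auxiliary linear order of the index set (only to use the digit space theorems) -/
@[reducible] def ixOrder (m : ℕ) : LinearOrder (Ix m) :=
  LinearOrder.lift' (Fintype.equivFin (Ix m)) (Fintype.equivFin (Ix m)).injective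

attribute [local instance 10000] ixOrder

/-- exponent vectors `a_(i,j) = e_i + e_j` -/
def aS (m : ℕ) (c : Ix m) (i : Fin m) : ℕ := (if c.1.1 = i then 1 else 0) + (if c.1.2 = i then 1 else 0)

theorem aS_sum (m : ℕ) (c : Ix m) : ∑ i, aS m c i = 2 := by
  unfold aS
  rw [Finset.sum_add_distrib, Finset.sum_ite_eq, Finset.sum_ite_eq]
  simp

theorem lv_aS (m : ℕ) (w : Fin m → ℤ) (c : Ix m) : Zyg.lv (aS m) w c = w c.1.1 + w c.1.2 := by
  unfold Zyg.lv aS
  push_cast
  simp only [add_mul, Finset.sum_add_distrib, ite_mul, one_mul, zero_mul, Finset.sum_ite_eq,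
    Finset.mem_univ, if_true]

/-- the lattice comparison of the determinants -/
lemma kerUse_cmp {m : ℕ} {C2 p : ℝ} (hC2 : 0 < C2) (hp : 0 ≤ p)
    (h : ∀ x h : Ix m → ℝ, (∀ c, |h c| ≤ 1) → absDet (x + h) 1 ≤ C2 * absDet x 1)
    (X : Ix m → ℝ) (s : Ix m → ℤ) (hs : ∀ c, |(s c : ℝ) - X c| ≤ 1) :
    absDet X 1 ^ (-p) ≤ C2 ^ p * absDet (fun c => (s c : ℝ)) 1 ^ (-p) := by
  have h1 : absDet (fun c => (s c : ℝ)) 1 ≤ C2 * absDet X 1 := by
    have := h X (fun c => (s c : ℝ) - X c) hs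
    have e : (X + fun c => (s c : ℝ) - X c) = fun c => (s c : ℝ) := by
      funext c
      simp
    rwa [e] at this
  have hs0 : 0 < absDet (fun c => (s c : ℝ)) 1 := lt_of_lt_of_le one_pos (one_le_absDet _)
  have h2 : absDet (fun c => (s c : ℝ)) 1 / C2 ≤ absDet X 1 := by
    rw [div_le_iff₀ hC2]
    linarith
  have h3 := Real.rpow_le_rpow_of_nonpos (div_pos hs0 hC2) h2 (neg_nonpos.mpr hp)
  refine h3.trans (le_of_eq ?_)
  rw [Real.div_rpow hs0.le hC2.le, Real.rpow_neg hC2.le, div_inv_eq_mul, mul_comm]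

/-- a nonnegative integral as a sum over the dyadic boxes -/
lemma kerUse_split {m : ℕ} (l : Ix m → ℤ) (F : (Ix m → ℝ) → ℝ≥0∞) :
    ∫⁻ y, F y = ∑' j : Ix m → ℤ, ∫⁻ y in Zyg.bx l j, F y := by
  have h := lintegral_iUnion (μ := (volume : Measure (Ix m → ℝ)))
    (fun j => Zyg.measurableSet_bx l j) (by
      intro i j hij
      rw [Function.onFun, Set.disjoint_left]
      intro y hy hy'
      exact hij (hy.symm.trans hy')) F
  rw [← h]
  have hU : (⋃ j : Ix m → ℤ, Zyg.bx l j) = Set.univ := by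
    ext y
    simp [Zyg.bx]
  rw [hU, Measure.restrict_univ]

theorem conv_le (m : ℕ) : ∃ Cu : ℝ, 0 < Cu ∧ ∀ (h : (Ix m → ℝ) → ℝ≥0∞), Measurable h →
    ∀ d : Fin m → ℝ, (∀ i, 0 < d i) → ∀ x : Ix m → ℝ,
    ∫⁻ t, h (x - t) * ENNReal.ofReal (kern (Matrix.diagonal d) t) ≤
      ENNReal.ofReal Cu * ∑' s : Ix m → ℤ,
        ENNReal.ofReal (absDet (fun c => (s c : ℝ)) 1 ^ (-((m : ℝ) + 1))) *
          Zyg.MM (aS m) (-s) h x := by
  obtain ⟨C1, hC1, hk⟩ := kern_le m
  obtain ⟨C2, hC2, hsh⟩ := absDet_shift m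
  have hp : 0 ≤ (m : ℝ) + 1 := by positivity
  refine ⟨C1 * C2 ^ ((m : ℝ) + 1), by positivity, fun h hh d hd x => ?_⟩
  have hex : ∀ i, ∃ k : ℤ, d i ∈ Set.Ico ((4 : ℝ) ^ k) ((4 : ℝ) ^ (k + 1)) := fun i =>
    exists_mem_Ico_zpow (hd i) (by norm_num)
  choose k hk1 using hex
  set l : Ix m → ℤ := Zyg.lv (aS m) (-k) with hl
  have hlc : ∀ c, l c = -(k c.1.1 + k c.1.2) := by
    intro c
    rw [hl, lv_aS]
    simp only [Pi.neg_apply]
    ring
  set J := Zyg.idx l x with hJ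
  set κ : ℝ := C1 * C2 ^ ((m : ℝ) + 1) with hκ
  have hκ0 : 0 ≤ κ := by positivity
  -- the pointwise bound on a box
  have hpt : ∀ s : Ix m → ℤ, ∀ y ∈ Zyg.bx l (J - s),
      ENNReal.ofReal (kern (Matrix.diagonal d) (x - y)) ≤
        ENNReal.ofReal κ * (Zyg.dens l *
          ENNReal.ofReal (absDet (fun c => (s c : ℝ)) 1 ^ (-((m : ℝ) + 1)))) := by
    intro s y hy
    have h1 := hk d k (fun i => (hk1 i).1) (fun i => by
      have := (hk1 i).2.le
      rwa [zpow_add_one₀ (by norm_num), mul_comm] at this) (x - y)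
    have h2 := kerUse_cmp hC2 hp hsh
      (fun c : Ix m => (2 : ℝ) ^ (-(k c.1.1 + k c.1.2)) * (x - y) c) s (by
        intro c
        have e1 : Zyg.idx l y = J - s := hy
        have e2 : (⌊(2 : ℝ) ^ (l c) * y c⌋ : ℤ) = J c - s c := congrFun e1 c
        have e3 : (⌊(2 : ℝ) ^ (l c) * x c⌋ : ℤ) = J c := rfl
        have f1 := Int.floor_le ((2 : ℝ) ^ (l c) * y c)
        have f2 := Int.lt_floor_add_one ((2 : ℝ) ^ (l c) * y c)
        have f3 := Int.floor_le ((2 : ℝ) ^ (l c) * x c)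
        have f4 := Int.lt_floor_add_one ((2 : ℝ) ^ (l c) * x c)
        rw [e2] at f1 f2
        rw [e3] at f3 f4
        push_cast at f1 f2
        rw [← hlc c, Pi.sub_apply, mul_sub, abs_le]
        constructor <;> linarith)
    have hD0 : (0 : ℝ) ≤ ∏ c : Ix m, (2 : ℝ) ^ (-(k c.1.1 + k c.1.2)) :=
      Finset.prod_nonneg fun c _ => by positivity
    have hdens : ENNReal.ofReal (∏ c : Ix m, (2 : ℝ) ^ (-(k c.1.1 + k c.1.2))) = Zyg.dens l := by
      unfold Zyg.dens
      rw [ENNReal.ofReal_prod_of_nonneg fun c _ => by positivity]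
      refine Finset.prod_congr rfl fun c _ => ?_
      rw [hlc c]
    have hs0 : 0 ≤ absDet (fun c => (s c : ℝ)) 1 ^ (-((m : ℝ) + 1)) :=
      Real.rpow_nonneg (zero_le_one.trans (one_le_absDet _)) _
    calc ENNReal.ofReal (kern (Matrix.diagonal d) (x - y))
        ≤ ENNReal.ofReal (κ * ((∏ c : Ix m, (2 : ℝ) ^ (-(k c.1.1 + k c.1.2))) *
            absDet (fun c => (s c : ℝ)) 1 ^ (-((m : ℝ) + 1)))) := by
          apply ENNReal.ofReal_le_ofReal
          refine h1.trans ?_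
          calc _ ≤ C1 * (∏ c : Ix m, (2 : ℝ) ^ (-(k c.1.1 + k c.1.2))) *
                (C2 ^ ((m : ℝ) + 1) * absDet (fun c => (s c : ℝ)) 1 ^ (-((m : ℝ) + 1))) :=
                mul_le_mul_of_nonneg_left h2 (mul_nonneg hC1.le hD0)
            _ = _ := by
                rw [hκ]
                ring
      _ = _ := by
          rw [ENNReal.ofReal_mul hκ0, ENNReal.ofReal_mul hD0, hdens]
  have hF : ∫⁻ t, h (x - t) * ENNReal.ofReal (kern (Matrix.diagonal d) t) =
      ∫⁻ y, h y * ENNReal.ofReal (kern (Matrix.diagonal d) (x - y)) := by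
    rw [← lintegral_sub_left_eq_self
      (fun y => h y * ENNReal.ofReal (kern (Matrix.diagonal d) (x - y))) x]
    refine lintegral_congr fun t => ?_
    have e : x - (x - t) = t := by
      funext c
      simp
    simp only [e]
  rw [hF, kerUse_split l, ← (Equiv.subLeft J).tsum_eq, ← ENNReal.tsum_mul_left]
  refine ENNReal.tsum_le_tsum fun s => ?_
  rw [Equiv.subLeft_apply]
  calc ∫⁻ y in Zyg.bx l (J - s), h y * ENNReal.ofReal (kern (Matrix.diagonal d) (x - y))
      ≤ ∫⁻ y in Zyg.bx l (J - s), h y * (ENNReal.ofReal κ * (Zyg.dens l *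
          ENNReal.ofReal (absDet (fun c => (s c : ℝ)) 1 ^ (-((m : ℝ) + 1))))) := by
        refine setLIntegral_mono' (Zyg.measurableSet_bx l (J - s)) fun y hy => ?_
        gcongr
        exact hpt s y hy
    _ = (∫⁻ y in Zyg.bx l (J - s), h y) * (ENNReal.ofReal κ * (Zyg.dens l *
          ENNReal.ofReal (absDet (fun c => (s c : ℝ)) 1 ^ (-((m : ℝ) + 1))))) :=
        lintegral_mul_const _ hh
    _ = ENNReal.ofReal κ * (ENNReal.ofReal (absDet (fun c => (s c : ℝ)) 1 ^ (-((m : ℝ) + 1))) *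
          Zyg.avb h l (J + -s)) := by
        rw [Zyg.avb, ← sub_eq_add_neg]
        ring
    _ ≤ _ := by
        gcongr
        unfold Zyg.MM
        exact le_iSup (fun w : Fin m → ℤ =>
          Zyg.avb h (Zyg.lv (aS m) w) (Zyg.idx (Zyg.lv (aS m) w) x + -s)) (-k)

end SiegelPoisson
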