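import Pool.Agent.Work.MP_93d592_an.B.KerS

/-!
# Norm : the normalisation of the Poisson kernel

`∫ P_y = 1` for every diagonal positive definite `y` (with the constant `cm m = (∫ kern 1)⁻¹`).
-/

open MeasureTheory ENNReal
open scoped Classical

noncomputable section

namespace SiegelPoisson

theorem Norm_prod_Ix (m : ℕ) (g : Fin m → ℝ) :
    ∏ c : Ix m, (g c.1.1 * g c.1.2) = (∏ i, g i) ^ (m + 1) := by
  have h1 : ∏ c : Ix m, (g c.1.1 * g c.1.2)
      = ∏ p : Fin m × Fin m, if p.1 ≤ p.2 then (g p.1 * g p.2) else 1 := by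
    rw [← Finset.prod_filter, ← Finset.prod_subtype_eq_prod_filter]
    simp
  rw [h1, Fintype.prod_prod_type]
  have h2 : ∀ i j : Fin m, (if i ≤ j then (g i * g j) else 1)
      = (if i ≤ j then g i else 1) * (if i ≤ j then g j else 1) := by
    intro i j; split_ifs <;> simp
  simp only [h2, Finset.prod_mul_distrib]
  have h3 : ∏ i : Fin m, ∏ j : Fin m, (if i ≤ j then g j else 1)
      = ∏ i : Fin m, ∏ j : Fin m, (if j ≤ i then g i else 1) := Finset.prod_comm
  rw [h3, ← Finset.prod_mul_distrib, ← Finset.prod_pow]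
  refine Finset.prod_congr rfl fun i _ => ?_
  rw [← Finset.prod_mul_distrib]
  have h4 : ∀ j : Fin m, ((if i ≤ j then g i else 1) * (if j ≤ i then g i else 1))
      = g i * (if i = j then g i else 1) := by
    intro j
    rcases lt_trichotomy i j with h | h | h
    · rw [if_pos h.le, if_neg (not_le.2 h), if_neg h.ne]
    · subst h; simp
    · rw [if_neg (not_le.2 h), if_pos h.le, if_neg h.ne']; ring
  simp only [h4, Finset.prod_mul_distrib, Finset.prod_const, Finset.card_univ, Fintype.card_fin,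
    Finset.prod_ite_eq, Finset.mem_univ, if_true]
  ring

theorem Norm_kern_one {m : ℕ} (x : Ix m → ℝ) :
    kern (m := m) 1 x = Zyg.Dn x ^ (-((m : ℝ) + 1)) := by
  have hD : 0 < Zyg.Dn x := lt_of_lt_of_le one_pos (Zyg.one_le_Dn x)
  rw [kern, Matrix.det_one, absDet_one, one_div, Real.inv_rpow (by positivity),
    ← Real.rpow_natCast, ← Real.rpow_mul hD.le, ← Real.rpow_neg hD.le]
  congr 1
  push_cast
  ring

/-- `kern (diag g²)` in scaled coordinates -/
theorem Norm_kern_diag {m : ℕ} (x : Ix m → ℝ) (g : Fin m → ℝ) (hg : ∀ i, 0 < g i) :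
    kern (Matrix.diagonal fun i => g i ^ 2) x
      = ((∏ i, g i) ^ (m + 1))⁻¹ * Zyg.Dn (Zyg.scl g x) ^ (-((m : ℝ) + 1)) := by
  have hP : 0 < ∏ i, g i := Finset.prod_pos fun i _ => hg i
  have hD : 0 < Zyg.Dn (Zyg.scl g x) := lt_of_lt_of_le one_pos (Zyg.one_le_Dn _)
  rw [kern_eq_pk, Zyg.pk_scale x g hg, one_div, ← mul_pow, Real.inv_rpow (by positivity)]
  have h12 : (((∏ i, g i) * Zyg.Dn (Zyg.scl g x)) ^ 2) ^ (((m : ℝ) + 1) / 2)
      = ((∏ i, g i) * Zyg.Dn (Zyg.scl g x)) ^ ((m : ℝ) + 1) := by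
    rw [← Real.rpow_natCast, ← Real.rpow_mul (by positivity)]
    congr 1
    push_cast
    ring
  rw [h12, Real.mul_rpow hP.le hD.le, mul_inv, ← Real.rpow_neg hD.le]
  congr 2
  rw [← Real.rpow_natCast]
  congr 1
  push_cast
  ring

theorem Norm_measurable_Dn {m : ℕ} :
    Measurable fun y : Ix m → ℝ => Zyg.Dn y ^ (-((m : ℝ) + 1)) :=
  Zyg.Dn_continuous.measurable.pow_const _

theorem Norm_integrable {m : ℕ} :
    Integrable fun y : Ix m → ℝ => Zyg.Dn y ^ (-((m : ℝ) + 1)) := by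
  refine ⟨Norm_measurable_Dn.aestronglyMeasurable, ?_⟩
  rw [hasFiniteIntegral_iff_enorm]
  have h1 := Zyg.lint_Dn m ((m : ℝ) + 1) (by linarith)
  refine lt_of_le_of_lt (le_of_eq ?_) h1
  refine lintegral_congr fun y => ?_
  have hD : 0 ≤ Zyg.Dn y := le_trans zero_le_one (Zyg.one_le_Dn y)
  rw [Real.enorm_of_nonneg (Real.rpow_nonneg hD _)]

theorem Norm_integral_pos (m : ℕ) :
    0 < ∫ y : Ix m → ℝ, Zyg.Dn y ^ (-((m : ℝ) + 1)) := by
  have hpos : ∀ y : Ix m → ℝ, 0 < Zyg.Dn y ^ (-((m : ℝ) + 1)) := fun y =>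
    Real.rpow_pos_of_pos (lt_of_lt_of_le one_pos (Zyg.one_le_Dn y)) _
  rw [integral_pos_iff_support_of_nonneg (fun y => (hpos y).le) Norm_integrable]
  have : (Function.support fun y : Ix m → ℝ => Zyg.Dn y ^ (-((m : ℝ) + 1))) = Set.univ := by
    ext y
    simp only [Function.mem_support, Set.mem_univ, iff_true]
    exact (hpos y).ne'
  rw [this]
  exact isOpen_univ.measure_pos volume Set.univ_nonempty

/-- the integral of `kern y` does not depend on `y` -/
theorem integral_kern {m : ℕ} {d : Fin m → ℝ} (hd : ∀ i, 0 < d i) :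
    ∫ t, kern (m := m) (Matrix.diagonal d) t = ∫ t, kern (m := m) 1 t := by
  set g : Fin m → ℝ := fun i => Real.sqrt (d i) with hgdef
  have hg : ∀ i, 0 < g i := fun i => Real.sqrt_pos.2 (hd i)
  have hdg : d = fun i => g i ^ 2 := by
    funext i; rw [hgdef]; exact (Real.sq_sqrt (hd i).le).symm
  have hP : 0 < ∏ i, g i := Finset.prod_pos fun i _ => hg i
  set M : Matrix (Ix m) (Ix m) ℝ := Matrix.diagonal fun c => (g c.1.1 * g c.1.2)⁻¹ with hM
  have hdetM : M.det = ((∏ i, g i) ^ (m + 1))⁻¹ := by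
    rw [hM, Matrix.det_diagonal, Finset.prod_inv_distrib, Norm_prod_Ix]
  have hdet : M.det ≠ 0 := by rw [hdetM]; positivity
  have hl : ∀ x : Ix m → ℝ, Matrix.toLin' M x = Zyg.scl g x := by
    intro x
    funext c
    rw [Matrix.toLin'_apply, hM, Matrix.mulVec_diagonal, Zyg.scl, div_eq_mul_inv, mul_comm]
  have hmeas : Measurable (Matrix.toLin' M) :=
    (LinearMap.continuous_on_pi (Matrix.toLin' M)).measurable
  have h1 := Real.map_matrix_volume_pi_eq_smul_volume_pi hdet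
  have h2 : ∫ x : Ix m → ℝ, Zyg.Dn (Zyg.scl g x) ^ (-((m : ℝ) + 1))
      = (∏ i, g i) ^ (m + 1) * ∫ y : Ix m → ℝ, Zyg.Dn y ^ (-((m : ℝ) + 1)) := by
    have h3 : ∫ y, Zyg.Dn y ^ (-((m : ℝ) + 1)) ∂(Measure.map (Matrix.toLin' M) volume)
        = ∫ x : Ix m → ℝ, Zyg.Dn (Matrix.toLin' M x) ^ (-((m : ℝ) + 1)) :=
      integral_map hmeas.aemeasurable Norm_measurable_Dn.aestronglyMeasurable
    simp only [hl] at h3
    rw [← h3, h1, integral_smul_measure, hdetM, inv_inv, abs_of_pos (by positivity),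
      ENNReal.toReal_ofReal (by positivity), smul_eq_mul]
  rw [hdg]
  simp only [Norm_kern_diag _ g hg, Norm_kern_one]
  rw [integral_const_mul, h2, ← mul_assoc, inv_mul_cancel₀ (by positivity), one_mul]

/-- `P_y` is a probability density -/
theorem integral_poisson {m : ℕ} {d : Fin m → ℝ} (hd : ∀ i, 0 < d i) :
    ∫ t, poisson (m := m) (Matrix.diagonal d) t = 1 := by
  simp only [poisson]
  rw [integral_const_mul, integral_kern hd, cm]
  have h1 : ∫ x : Ix m → ℝ, kern 1 x = ∫ y : Ix m → ℝ, Zyg.Dn y ^ (-((m : ℝ) + 1)) := by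
    simp only [Norm_kern_one]
  rw [h1]
  exact inv_mul_cancel₀ (Norm_integral_pos m).ne'

end SiegelPoisson
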