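import Pool.Agent.Work.MP_93d592_an.B.Box

/-!
# Shift1 : the one-dimensional shift lemma (maximal dyadic intervals)
-/

open MeasureTheory ENNReal
open scoped Classical

noncomputable section

namespace Zyg

/-- the factor for a shift by `s` -/
def kap (s : ℤ) : ℝ := 4 + Real.logb 2 (1 + |(s : ℝ)|)

/-- dyadic interval of the line -/
def Shift1_I (p : ℤ × ℤ) : Set ℝ := {t : ℝ | ⌊(2 : ℝ) ^ p.1 * t⌋ = p.2}

theorem Shift1_I_eq (p : ℤ × ℤ) :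
    Shift1_I p = Set.Ico ((p.2 : ℝ) / (2 : ℝ) ^ p.1) (((p.2 : ℝ) + 1) / (2 : ℝ) ^ p.1) := by
  ext t
  have h2 : (0 : ℝ) < (2 : ℝ) ^ p.1 := zpow_pos (by norm_num) _
  simp only [Shift1_I, Set.mem_ofPred_eq, Set.mem_Ico, Int.floor_eq_iff, div_le_iff₀ h2, lt_div_iff₀ h2]
  rw [mul_comm t]

theorem Shift1_measurable (p : ℤ × ℤ) : MeasurableSet (Shift1_I p) := by
  rw [Shift1_I_eq]
  exact measurableSet_Ico

theorem Shift1_vol (p : ℤ × ℤ) : volume (Shift1_I p) = ENNReal.ofReal (1 / (2 : ℝ) ^ p.1) := by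
  rw [Shift1_I_eq, Real.volume_Ico]
  congr 1
  ring

theorem Shift1_nest {l' l : ℤ} (h : l' ≤ l) (t : ℝ) :
    ⌊(2 : ℝ) ^ l' * t⌋ = ⌊(2 : ℝ) ^ l * t⌋ / ((2 ^ (l - l').toNat : ℕ) : ℤ) := by
  rw [← Int.floor_div_natCast]
  congr 1
  have h1 : (2 : ℝ) ^ l = (2 : ℝ) ^ l' * (2 : ℝ) ^ ((l - l').toNat) := by
    rw [← zpow_natCast, ← zpow_add₀ (by norm_num : (2 : ℝ) ≠ 0)]
    congr 1
    rw [Int.toNat_of_nonneg (by omega)]
    ring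
  have h2 : (0 : ℝ) < (2 : ℝ) ^ ((l - l').toNat) := by positivity
  rw [h1]
  push_cast
  field_simp

theorem Shift1_kap_pos (s : ℤ) : 0 < kap s := by
  have : 0 ≤ Real.logb 2 (1 + |(s : ℝ)|) := by
    apply Real.logb_nonneg (by norm_num)
    linarith [abs_nonneg (s : ℝ)]
  unfold kap
  linarith

/-- number of large shifts -/
theorem Shift1_clog (s : ℤ) : (3 : ℝ) + (Nat.clog 2 s.natAbs : ℕ) ≤ kap s := by
  have h0 : 0 ≤ Real.logb 2 (1 + |(s : ℝ)|) := by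
    apply Real.logb_nonneg (by norm_num)
    linarith [abs_nonneg (s : ℝ)]
  unfold kap
  by_cases h : 1 < s.natAbs
  · have h1 := Nat.pow_pred_clog_lt_self (b := 2) (by norm_num) h
    set K := Nat.clog 2 s.natAbs with hK
    have hKpos : 0 < K := Nat.clog_pos (by norm_num) (by omega)
    have h2 : ((K - 1 : ℕ) : ℝ) ≤ Real.logb 2 (1 + |(s : ℝ)|) := by
      rw [Real.le_logb_iff_rpow_le (by norm_num) (by linarith [abs_nonneg (s : ℝ)]),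
        Real.rpow_natCast]
      have h3 : ((2 ^ (K - 1) : ℕ) : ℝ) < (s.natAbs : ℕ) := by
        exact_mod_cast h1
      have h4 : ((s.natAbs : ℕ) : ℝ) = |(s : ℝ)| := by
        rw [Nat.cast_natAbs]
        push_cast
        rfl
      push_cast at h3
      rw [← h4]
      linarith
    have h5 : ((K - 1 : ℕ) : ℝ) = (K : ℝ) - 1 := by
      rw [Nat.cast_sub (by omega)]
      simp
    rw [h5] at h2
    linarith
  · have h1 : Nat.clog 2 s.natAbs = 0 := by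
      apply Nat.clog_of_right_le_one
      omega
    rw [h1]
    push_cast
    linarith

/-- the part of the shifted set governed by a maximal interval -/
def Shift1_W (s : ℤ) (p : ℤ × ℤ) : Set ℝ :=
  Set.Ico (((p.2 : ℝ) - 1) / (2 : ℝ) ^ p.1) (((p.2 : ℝ) + 2) / (2 : ℝ) ^ p.1) ∪
    ⋃ i ∈ Finset.range (Nat.clog 2 s.natAbs),
      Set.Ico (((p.2 : ℝ) - s / (2 : ℝ) ^ i) / (2 : ℝ) ^ p.1)
        (((p.2 : ℝ) + 1 - s / (2 : ℝ) ^ i) / (2 : ℝ) ^ p.1)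

theorem Shift1_W_vol (s : ℤ) (p : ℤ × ℤ) :
    volume (Shift1_W s p) ≤ ENNReal.ofReal (kap s) * volume (Shift1_I p) := by
  have h2 : (0 : ℝ) < (2 : ℝ) ^ p.1 := zpow_pos (by norm_num) _
  have h1 : volume (Shift1_W s p) ≤ ENNReal.ofReal (3 / (2 : ℝ) ^ p.1) +
      ∑ i ∈ Finset.range (Nat.clog 2 s.natAbs), ENNReal.ofReal (1 / (2 : ℝ) ^ p.1) := by
    refine (measure_union_le _ _).trans (add_le_add ?_ ?_)
    · rw [Real.volume_Ico]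
      apply le_of_eq
      congr 1
      ring
    · refine (measure_biUnion_finset_le _ _).trans (Finset.sum_le_sum ?_)
      intro i _
      rw [Real.volume_Ico]
      apply le_of_eq
      congr 1
      ring
  refine h1.trans ?_
  rw [Shift1_vol, Finset.sum_const, Finset.card_range, ← ENNReal.ofReal_nsmul,
    ← ENNReal.ofReal_add (by positivity) (by positivity),
    ← ENNReal.ofReal_mul (Shift1_kap_pos s).le]
  apply ENNReal.ofReal_le_ofReal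
  rw [nsmul_eq_mul]
  have h3 := Shift1_clog s
  have h4 : 3 / (2 : ℝ) ^ p.1 + (Nat.clog 2 s.natAbs : ℕ) * (1 / (2 : ℝ) ^ p.1) =
      (3 + (Nat.clog 2 s.natAbs : ℕ)) * (1 / (2 : ℝ) ^ p.1) := by ring
  rw [h4]
  exact mul_le_mul_of_nonneg_right h3 (by positivity)

theorem Shift1_cover (s : ℤ) (l l₀ j : ℤ) (hl : l₀ ≤ l) (t t₁ : ℝ)
    (ht : ⌊(2 : ℝ) ^ l * t⌋ + s = j) (ht₁ : ⌊(2 : ℝ) ^ l * t₁⌋ = j) :
    t ∈ Shift1_W s (l₀, ⌊(2 : ℝ) ^ l₀ * t₁⌋) := by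
  have h2 : (0 : ℝ) < (2 : ℝ) ^ l₀ := zpow_pos (by norm_num) _
  set i := (l - l₀).toNat with hi
  have hpi : (0 : ℝ) < (2 : ℝ) ^ i := by positivity
  have hpl : (2 : ℝ) ^ l = (2 : ℝ) ^ l₀ * (2 : ℝ) ^ i := by
    rw [← zpow_natCast, ← zpow_add₀ (by norm_num : (2 : ℝ) ≠ 0)]
    congr 1
    rw [hi, Int.toNat_of_nonneg (by omega)]
    ring
  have hn := Shift1_nest hl t₁
  rw [ht₁, ← hi] at hn
  set j₀ := ⌊(2 : ℝ) ^ l₀ * t₁⌋ with hj₀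
  -- `j₀ = j / 2^i`
  have hpz : (0 : ℤ) < ((2 ^ i : ℕ) : ℤ) := by positivity
  have hlow : j₀ * ((2 ^ i : ℕ) : ℤ) ≤ j := by
    rw [hn]; exact Int.ediv_mul_le _ hpz.ne'
  have hup : j < (j₀ + 1) * ((2 ^ i : ℕ) : ℤ) := by
    rw [hn]; exact Int.lt_ediv_add_one_mul_self _ hpz
  have hlow' : (j₀ : ℝ) * (2 : ℝ) ^ i ≤ j := by exact_mod_cast hlow
  have hup' : (j : ℝ) + 1 ≤ ((j₀ : ℝ) + 1) * (2 : ℝ) ^ i := by
    have : j + 1 ≤ (j₀ + 1) * ((2 ^ i : ℕ) : ℤ) := hup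
    exact_mod_cast this
  have hfl : ((j : ℝ) - s) ≤ (2 : ℝ) ^ l * t := by
    have h := Int.floor_le ((2 : ℝ) ^ l * t)
    have h' : ((⌊(2 : ℝ) ^ l * t⌋ : ℤ) : ℝ) = (j : ℝ) - s := by
      rw [← ht]; push_cast; ring
    rw [h'] at h
    exact h
  have hfu : (2 : ℝ) ^ l * t < (j : ℝ) - s + 1 := by
    have h := Int.lt_floor_add_one ((2 : ℝ) ^ l * t)
    have h' : ((⌊(2 : ℝ) ^ l * t⌋ : ℤ) : ℝ) = (j : ℝ) - s := by
      rw [← ht]; push_cast; ring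
    rw [h'] at h
    exact h
  rw [hpl] at hfl hfu
  -- bounds for `2^l₀ t`
  have hA : (j₀ : ℝ) - s / (2 : ℝ) ^ i ≤ (2 : ℝ) ^ l₀ * t := by
    rw [sub_le_iff_le_add]
    have h := hlow'.trans (by linarith : (j : ℝ) ≤ (2 : ℝ) ^ l₀ * (2 : ℝ) ^ i * t + s)
    rw [← sub_nonneg] at h ⊢
    have h' : (2 : ℝ) ^ l₀ * t + s / (2 : ℝ) ^ i - j₀ =
        ((2 : ℝ) ^ l₀ * (2 : ℝ) ^ i * t + s - j₀ * (2 : ℝ) ^ i) / (2 : ℝ) ^ i := by
      field_simp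
    rw [h']
    exact div_nonneg h hpi.le
  have hB : (2 : ℝ) ^ l₀ * t < (j₀ : ℝ) + 1 - s / (2 : ℝ) ^ i := by
    rw [← sub_pos]
    have h : 0 < ((j₀ : ℝ) + 1) * (2 : ℝ) ^ i - s - (2 : ℝ) ^ l₀ * (2 : ℝ) ^ i * t := by linarith
    have h' : (j₀ : ℝ) + 1 - s / (2 : ℝ) ^ i - (2 : ℝ) ^ l₀ * t =
        (((j₀ : ℝ) + 1) * (2 : ℝ) ^ i - s - (2 : ℝ) ^ l₀ * (2 : ℝ) ^ i * t) / (2 : ℝ) ^ i := by
      field_simp
    rw [h']
    exact div_pos h hpi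
  by_cases hK : i < Nat.clog 2 s.natAbs
  · right
    simp only [Set.mem_iUnion, Set.mem_Ico, Finset.mem_range]
    refine ⟨i, hK, ?_, ?_⟩
    · rw [div_le_iff₀ h2, mul_comm t]; exact hA
    · rw [lt_div_iff₀ h2, mul_comm t]; exact hB
  · left
    have h3 : s.natAbs ≤ 2 ^ i := (Nat.le_pow_clog (by norm_num) _).trans
      (Nat.pow_le_pow_right (by norm_num) (not_lt.mp hK))
    have h4 : |(s : ℝ)| ≤ (2 : ℝ) ^ i := by
      have h5 : ((s.natAbs : ℕ) : ℝ) = |(s : ℝ)| := by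
        rw [Nat.cast_natAbs]
        push_cast
        rfl
      rw [← h5]
      exact_mod_cast h3
    have h5 : |(s : ℝ) / (2 : ℝ) ^ i| ≤ 1 := by
      rw [abs_div, abs_of_pos hpi, div_le_one hpi]
      exact h4
    have h6 := abs_le.mp h5
    simp only [Set.mem_Ico]
    refine ⟨?_, ?_⟩
    · rw [div_le_iff₀ h2, mul_comm t]; linarith
    · rw [lt_div_iff₀ h2, mul_comm t]; linarith

theorem shift1 (R : Set (ℤ × ℤ)) (s : ℤ) :
    volume {t : ℝ | ∃ l : ℤ, (l, ⌊(2 : ℝ) ^ l * t⌋ + s) ∈ R} ≤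
      ENNReal.ofReal (kap s) * volume {t : ℝ | ∃ l : ℤ, (l, ⌊(2 : ℝ) ^ l * t⌋) ∈ R} := by
  set U : Set ℝ := {t : ℝ | ∃ l : ℤ, (l, ⌊(2 : ℝ) ^ l * t⌋) ∈ R} with hU
  by_cases hfin : volume U = ⊤
  · rw [hfin, ENNReal.mul_top (by simpa using Shift1_kap_pos s)]
    exact le_top
  -- levels are bounded below
  have hIU : ∀ p ∈ R, Shift1_I p ⊆ U := by
    intro p hp t ht
    refine ⟨p.1, ?_⟩
    have : ⌊(2 : ℝ) ^ p.1 * t⌋ = p.2 := ht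
    rw [this]
    exact hp
  obtain ⟨n, hn⟩ := pow_unbounded_of_one_lt (volume U).toReal (by norm_num : (1 : ℝ) < 2)
  have hbdd : ∀ p ∈ R, -(n : ℤ) ≤ p.1 := by
    intro p hp
    by_contra hcon
    push Not at hcon
    have h1 := measure_mono (μ := volume) (hIU p hp)
    rw [Shift1_vol, ← ENNReal.ofReal_toReal hfin] at h1
    have h2 := (ENNReal.ofReal_le_ofReal_iff ENNReal.toReal_nonneg).mp h1
    have h3 : (2 : ℝ) ^ (n : ℤ) ≤ 1 / (2 : ℝ) ^ p.1 := by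
      rw [one_div, ← zpow_neg]
      exact zpow_le_zpow_right₀ (by norm_num) (by omega)
    rw [zpow_natCast] at h3
    linarith
  -- maximal intervals
  let R₀ : Set (ℤ × ℤ) := {p | p ∈ R ∧ ∀ l' : ℤ, l' < p.1 → ∀ t ∈ Shift1_I p,
    (l', ⌊(2 : ℝ) ^ l' * t⌋) ∉ R}
  have hmax : ∀ t₁ : ℝ, ∀ l : ℤ, (l, ⌊(2 : ℝ) ^ l * t₁⌋) ∈ R →
      ∃ l₀ : ℤ, l₀ ≤ l ∧ (l₀, ⌊(2 : ℝ) ^ l₀ * t₁⌋) ∈ R₀ := by
    intro t₁ l hl
    obtain ⟨l₀, hl₀, hmin⟩ := Int.exists_least_of_bdd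
      (P := fun z : ℤ => (z, ⌊(2 : ℝ) ^ z * t₁⌋) ∈ R)
      ⟨-(n : ℤ), fun z hz => hbdd _ hz⟩ ⟨l, hl⟩
    refine ⟨l₀, hmin l hl, hl₀, ?_⟩
    intro l' hl' t ht hcon
    have h1 : ⌊(2 : ℝ) ^ l₀ * t⌋ = ⌊(2 : ℝ) ^ l₀ * t₁⌋ := ht
    have h2 : ⌊(2 : ℝ) ^ l' * t⌋ = ⌊(2 : ℝ) ^ l' * t₁⌋ := by
      rw [Shift1_nest hl'.le t, Shift1_nest hl'.le t₁, h1]
    rw [h2] at hcon
    exact absurd (hmin l' hcon) (not_le.mpr hl')
  have hdisj : Pairwise (Function.onFun Disjoint (fun p : R₀ => Shift1_I p.1)) := by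
    have key : ∀ p q : R₀, ∀ t : ℝ, t ∈ Shift1_I p.1 → t ∈ Shift1_I q.1 → p.1.1 < q.1.1 → False := by
      intro p q t hp hq hlt
      apply q.2.2 p.1.1 hlt t hq
      have : ⌊(2 : ℝ) ^ p.1.1 * t⌋ = p.1.2 := hp
      rw [this]
      exact p.2.1
    intro p q hpq
    change Disjoint (Shift1_I p.1) (Shift1_I q.1)
    rw [Set.disjoint_left]
    intro t hp hq
    rcases lt_trichotomy p.1.1 q.1.1 with h | h | h
    · exact key p q t hp hq h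
    · apply hpq
      apply Subtype.ext
      apply Prod.ext h
      have h1 : ⌊(2 : ℝ) ^ p.1.1 * t⌋ = p.1.2 := hp
      have h2 : ⌊(2 : ℝ) ^ q.1.1 * t⌋ = q.1.2 := hq
      rw [← h1, ← h2, h]
    · exact key q p t hq hp h
  have hsub : (⋃ p : R₀, Shift1_I p.1) ⊆ U := by
    intro t ht
    obtain ⟨p, hp⟩ := Set.mem_iUnion.mp ht
    exact hIU p.1 p.2.1 hp
  have hcov : {t : ℝ | ∃ l : ℤ, (l, ⌊(2 : ℝ) ^ l * t⌋ + s) ∈ R} ⊆ ⋃ p : R₀, Shift1_W s p.1 := by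
    rintro t ⟨l, hl⟩
    have h2 : (0 : ℝ) < (2 : ℝ) ^ l := zpow_pos (by norm_num) _
    set j := ⌊(2 : ℝ) ^ l * t⌋ + s with hj
    have ht₁ : ⌊(2 : ℝ) ^ l * ((j : ℝ) / (2 : ℝ) ^ l)⌋ = j := by
      rw [mul_div_cancel₀ _ h2.ne', Int.floor_intCast]
    obtain ⟨l₀, hle, hmem⟩ := hmax ((j : ℝ) / (2 : ℝ) ^ l) l (by rw [ht₁]; exact hl)
    refine Set.mem_iUnion.mpr ⟨⟨_, hmem⟩, ?_⟩
    exact Shift1_cover s l l₀ j hle t _ hj.symm ht₁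
  calc volume {t : ℝ | ∃ l : ℤ, (l, ⌊(2 : ℝ) ^ l * t⌋ + s) ∈ R}
      ≤ volume (⋃ p : R₀, Shift1_W s p.1) := measure_mono hcov
    _ ≤ ∑' p : R₀, volume (Shift1_W s p.1) := measure_iUnion_le _
    _ ≤ ∑' p : R₀, ENNReal.ofReal (kap s) * volume (Shift1_I p.1) :=
        ENNReal.tsum_le_tsum (fun p => Shift1_W_vol s p.1)
    _ = ENNReal.ofReal (kap s) * ∑' p : R₀, volume (Shift1_I p.1) := ENNReal.tsum_mul_left
    _ = ENNReal.ofReal (kap s) * volume (⋃ p : R₀, Shift1_I p.1) := by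
        rw [measure_iUnion hdisj (fun p => Shift1_measurable p.1)]
    _ ≤ ENNReal.ofReal (kap s) * volume U := by gcongr

end Zyg
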